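import Pool.Agent.Common_Brouwer.Schauder

/-!
# The Poincaré–Miranda theorem
-/

namespace Pool.Agent.Helper53_TrInd

open Set Topology

/-- Poincaré–Miranda: continuous functions `f i` on the cube with `f i ≤ 0` on the face `x i = 0`
and `f i ≥ 0` on the face `x i = 1` have a common zero. -/
theorem miranda {ι : Type*} [Fintype ι] (f : ι → Icc (0 : ι → ℝ) 1 → ℝ)
    (hf : ∀ i, Continuous (f i)) (h0 : ∀ i x, x.1 i = 0 → f i x ≤ 0)
    (h1 : ∀ i x, x.1 i = 1 → 0 ≤ f i x) : ∃ x, ∀ i, f i x = 0 := by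
  classical
  let g : (ι → ℝ) → (ι → ℝ) := fun x =>
    if h : x ∈ Icc (0 : ι → ℝ) 1 then fun i => max 0 (min 1 (x i - f i ⟨x, h⟩)) else 0
  have hg : ∀ x (h : x ∈ Icc (0 : ι → ℝ) 1),
      g x = fun i => max 0 (min 1 (x i - f i ⟨x, h⟩)) := fun x h => dif_pos h
  have hgc : ContinuousOn g (Icc (0 : ι → ℝ) 1) := by
    rw [continuousOn_iff_continuous_domRestrict]
    have : (Icc (0 : ι → ℝ) 1).domRestrict g =
        fun x : Icc (0 : ι → ℝ) 1 => fun i => max 0 (min 1 (x.1 i - f i x)) := by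
      funext x
      exact hg x.1 x.2
    rw [this]
    refine continuous_pi fun i => ?_
    have h3 : Continuous fun x : Icc (0 : ι → ℝ) 1 => x.1 i :=
      (continuous_apply i).comp continuous_subtype_val
    exact continuous_const.max (continuous_const.min (h3.sub (hf i)))
  obtain ⟨x, hx, hfx⟩ := Pool.Agent.Common_Brouwer.schauder (K := Icc (0 : ι → ℝ) 1)
    isCompact_Icc (convex_Icc 0 1) ⟨0, by simp⟩ hgc (by
      intro x hx
      rw [hg x hx]
      exact ⟨fun i => le_max_left _ _, fun i => max_le zero_le_one (min_le_left _ _)⟩)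
  refine ⟨⟨x, hx⟩, fun i => ?_⟩
  have h2 : max 0 (min 1 (x i - f i ⟨x, hx⟩)) = x i := by
    have := congrFun hfx i
    rw [hg x hx] at this
    exact this
  have hx0 : 0 ≤ x i := hx.1 i
  have hx1 : x i ≤ 1 := hx.2 i
  rcases lt_trichotomy (f i ⟨x, hx⟩) 0 with h | h | h
  · exfalso
    have h3 : x i = 1 := by
      by_contra hne
      have h4 : x i < 1 := lt_of_le_of_ne hx1 hne
      have h5 : x i < min 1 (x i - f i ⟨x, hx⟩) := lt_min h4 (by linarith)
      have h6 := le_max_right 0 (min 1 (x i - f i ⟨x, hx⟩))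
      linarith
    have := h1 i ⟨x, hx⟩ h3
    linarith
  · exact h
  · exfalso
    have h3 : x i = 0 := by
      by_contra hne
      have h4 : 0 < x i := lt_of_le_of_ne hx0 (Ne.symm hne)
      have h5 : max 0 (min 1 (x i - f i ⟨x, hx⟩)) < x i :=
        max_lt h4 ((min_le_right _ _).trans_lt (by linarith))
      linarith
    have := h0 i ⟨x, hx⟩ h3
    linarith

end Pool.Agent.Helper53_TrInd
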