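import Mathlib

/-!
# Large transfinite dimension: definition and first properties
-/

namespace Pool.Agent.Helper53_TrInd

open Topology Set

/-- `TrIndLE α X` says that the large transfinite dimension of `X` is at most `α`: for every
closed `A` and every open `V ⊇ A` there is an open `U` with `A ⊆ U ⊆ V` whose boundary is empty
(that is, has dimension `-1`) or has dimension at most `β` for some `β < α`. -/
def TrIndLE (α : Ordinal.{0}) (X : Type) [TopologicalSpace X] : Prop :=
  ∀ A V : Set X, IsClosed A → IsOpen V → A ⊆ V →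
    ∃ U : Set X, IsOpen U ∧ A ⊆ U ∧ U ⊆ V ∧
      (frontier U = ∅ ∨ ∃ β : Ordinal.{0}, ∃ _ : β < α, TrIndLE β ↥(frontier U))
termination_by α
decreasing_by assumption

theorem trIndLE_iff (α : Ordinal.{0}) (X : Type) [TopologicalSpace X] :
    TrIndLE α X ↔ ∀ A V : Set X, IsClosed A → IsOpen V → A ⊆ V →
      ∃ U : Set X, IsOpen U ∧ A ⊆ U ∧ U ⊆ V ∧
        (frontier U = ∅ ∨ ∃ β < α, TrIndLE β ↥(frontier U)) := by
  rw [TrIndLE]
  simp only [exists_prop]

theorem TrIndLE.mono {α α' : Ordinal.{0}} (h : α ≤ α') {X : Type} [TopologicalSpace X]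
    (hX : TrIndLE α X) : TrIndLE α' X := by
  rw [trIndLE_iff] at hX ⊢
  intro A V hA hV hAV
  obtain ⟨U, h1, h2, h3, h4⟩ := hX A V hA hV hAV
  refine ⟨U, h1, h2, h3, h4.imp id ?_⟩
  rintro ⟨β, hβ, hb⟩
  exact ⟨β, hβ.trans_le h, hb⟩

theorem trIndLE_of_isEmpty (α : Ordinal.{0}) (X : Type) [TopologicalSpace X] [IsEmpty X] :
    TrIndLE α X := by
  rw [trIndLE_iff]
  intro A V _ _ _
  exact ⟨∅, isOpen_empty, by intro x; exact isEmptyElim x, by simp, Or.inl (by simp)⟩

theorem TrIndLE.of_isClosedEmbedding {α : Ordinal.{0}} :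
    ∀ {X Y : Type} [TopologicalSpace X] [TopologicalSpace Y] {j : Y → X},
      IsClosedEmbedding j → TrIndLE α X → TrIndLE α Y := by
  induction α using WellFoundedLT.induction with
  | _ α ih =>
    intro X Y _ _ j hj hX
    rw [trIndLE_iff] at hX ⊢
    intro A V hA hV hAV
    obtain ⟨U, h1, h2, h3, h4⟩ := hX (j '' A) (j '' Vᶜ)ᶜ (hj.isClosedMap _ hA)
      (hj.isClosedMap _ hV.isClosed_compl).isOpen_compl (by
        rintro _ ⟨a, ha, rfl⟩ ⟨b, hb, hab⟩
        rw [hj.injective hab] at hb
        exact hb (hAV ha))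
    have hf : frontier (j ⁻¹' U) ⊆ j ⁻¹' frontier U := hj.continuous.frontier_preimage_subset U
    refine ⟨j ⁻¹' U, h1.preimage hj.continuous, fun a ha => h2 ⟨a, ha, rfl⟩, ?_, ?_⟩
    · intro y hy
      by_contra hyV
      exact h3 hy ⟨y, hyV, rfl⟩
    · rcases h4 with h4 | ⟨β, hβ, hb⟩
      · left
        rw [h4] at hf
        exact subset_empty_iff.1 (by simpa using hf)
      · right
        refine ⟨β, hβ, ih β hβ (j := fun y : frontier (j ⁻¹' U) => (⟨j y, hf y.2⟩ : frontier U))
          ?_ hb⟩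
        have hg : IsClosedEmbedding (Subtype.val : frontier U → X) :=
          isClosed_frontier.isClosedEmbedding_subtypeVal
        rw [← IsClosedEmbedding.of_comp_iff hg]
        exact hj.comp isClosed_frontier.isClosedEmbedding_subtypeVal

theorem TrIndLE.of_closed_subset {α : Ordinal.{0}} {X : Type} [TopologicalSpace X]
    {S T : Set X} (hS : IsClosed S) (hST : S ⊆ T) (h : TrIndLE α ↥T) : TrIndLE α ↥S := by
  refine h.of_isClosedEmbedding (j := Set.inclusion hST) ?_
  refine ⟨.inclusion hST, ?_⟩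
  have : range (Set.inclusion hST) = (Subtype.val : T → X) ⁻¹' S := by
    ext x
    simp
  rw [this]
  exact hS.preimage continuous_subtype_val

end Pool.Agent.Helper53_TrInd
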