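import Pool.Agent.Helper53_TrInd.Partition

/-!
# Countably many iterated partitions and their dimensions
-/

namespace Pool.Agent.Helper53_TrInd

open Set Topology Filter TopologicalSpace

theorem compact_basis_cover {Z : Type} [TopologicalSpace Z] {𝓑 : Set (Set Z)}
    (h𝓑 : IsTopologicalBasis 𝓑) {P O : Set Z} (hP : IsCompact P) (hO : IsOpen O) (hPO : P ⊆ O) :
    ∃ s : Finset 𝓑, P ⊆ (⋃ u ∈ s, (u : Set Z)) ∧ (⋃ u ∈ s, (u : Set Z)) ⊆ O := by
  classical
  have h1 : ∀ x ∈ P, ∃ u : 𝓑, x ∈ (u : Set Z) ∧ (u : Set Z) ⊆ O := by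
    intro x hx
    obtain ⟨u, hu, hxu, huO⟩ := h𝓑.exists_subset_of_mem_open (hPO hx) hO
    exact ⟨⟨u, hu⟩, hxu, huO⟩
  choose f hf1 hf2 using h1
  obtain ⟨t, ht⟩ := hP.elim_nhds_subcover' (fun x hx => (f x hx : Set Z)) (fun x hx =>
    (h𝓑.isOpen (f x hx).2).mem_nhds (hf1 x hx))
  refine ⟨t.image fun x : P => f x.1 x.2, ?_, ?_⟩
  · intro x hx
    obtain ⟨y, hy, hxy⟩ := mem_iUnion₂.1 (ht hx)
    exact mem_iUnion₂.2 ⟨f y.1 y.2, Finset.mem_image_of_mem (fun x : P => f x.1 x.2) hy, hxy⟩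
  · intro x hx
    obtain ⟨u, hu, hxu⟩ := mem_iUnion₂.1 hx
    obtain ⟨y, hy, rfl⟩ := Finset.mem_image.1 hu
    exact hf2 y.1 y.2 hxu

/-- A countable family of functions separating the disjoint compact sets. -/
theorem exists_urysohn_family (Z : Type) [TopologicalSpace Z] [MetrizableSpace Z]
    [SecondCountableTopology Z] : ∃ φ : ℕ → Z → ℝ, (∀ i, Continuous (φ i)) ∧
      ∀ P P' : Set Z, IsCompact P → IsCompact P' → Disjoint P P' →
        ∃ i, (∀ z ∈ P, φ i z = 0) ∧ ∀ z ∈ P', φ i z = 1 := by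
  classical
  let 𝓑 : Set (Set Z) := countableBasis Z
  have h𝓑 : IsTopologicalBasis 𝓑 := isBasis_countableBasis Z
  have : Countable 𝓑 := (countable_countableBasis Z).to_subtype
  have hpair : ∀ st : Finset 𝓑 × Finset 𝓑, ∃ f : Z → ℝ, Continuous f ∧
      (Disjoint (closure (⋃ u ∈ st.1, (u : Set Z))) (closure (⋃ u ∈ st.2, (u : Set Z))) →
        (∀ z ∈ (⋃ u ∈ st.1, (u : Set Z)), f z = 0) ∧
          ∀ z ∈ (⋃ u ∈ st.2, (u : Set Z)), f z = 1) := by
    intro st
    by_cases hd : Disjoint (closure (⋃ u ∈ st.1, (u : Set Z))) (closure (⋃ u ∈ st.2, (u : Set Z)))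
    · obtain ⟨f, hf0, hf1, -⟩ := exists_continuous_zero_one_of_isClosed isClosed_closure
        isClosed_closure hd
      exact ⟨f, f.continuous, fun _ => ⟨fun z hz => hf0 (subset_closure hz),
        fun z hz => hf1 (subset_closure hz)⟩⟩
    · exact ⟨fun _ => 0, continuous_const, fun h => absurd h hd⟩
  choose f hfc hf using hpair
  obtain ⟨e, he⟩ := exists_surjective_nat (Finset 𝓑 × Finset 𝓑)
  refine ⟨fun i => f (e i), fun i => hfc _, ?_⟩
  intro P P' hP hP' hPP'
  obtain ⟨O, hO, hPO, hOP'⟩ := normal_exists_closure_subset hP.isClosed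
    hP'.isClosed.isOpen_compl (Set.disjoint_left.1 hPP')
  obtain ⟨O', hO', hPO', hOO'⟩ := normal_exists_closure_subset hP'.isClosed
    (isClosed_closure (s := O)).isOpen_compl (fun z hz hz' => hOP' hz' hz)
  obtain ⟨s, hs1, hs2⟩ := compact_basis_cover h𝓑 hP hO hPO
  obtain ⟨t, ht1, ht2⟩ := compact_basis_cover h𝓑 hP' hO' hPO'
  obtain ⟨i, hi⟩ := he (s, t)
  have hd : Disjoint (closure (⋃ u ∈ s, (u : Set Z))) (closure (⋃ u ∈ t, (u : Set Z))) := by
    rw [Set.disjoint_left]
    intro z hz hz'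
    exact hOO' (closure_mono ht2 hz') (closure_mono hs2 hz)
  have h1 := hf (s, t) hd
  refine ⟨i, fun z hz => ?_, fun z hz => ?_⟩
  · simp only [hi]
    exact h1.1 z (hs1 hz)
  · simp only [hi]
    exact h1.2 z (ht1 hz)

/-- There are iterated partitions of `L` along the first `n` coordinates `i 0, …, i (n-1)`, and
`r` pairwise disjoint partitions along the coordinate `i n`, the resulting sets having dimension at
most `β`. -/
def Good {Z : Type} [TopologicalSpace Z] (φ : ℕ → Z → ℝ) (L : Set Z) (n : ℕ) (i : ℕ → ℕ) (r : ℕ)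
    (β : Ordinal.{0}) : Prop :=
  ∃ Fn G : ℕ → Z → ℝ,
    (∀ k < n, Continuous (Fn k) ∧ (∀ z, φ (i k) z = 0 → Fn k z < 0) ∧
      ∀ z, φ (i k) z = 1 → 0 < Fn k z) ∧
    (∀ s < r, Continuous (G s) ∧ (∀ z, φ (i n) z = 0 → G s z < 0) ∧
      (∀ z, φ (i n) z = 1 → 0 < G s z) ∧
      TrIndLE β ↥(L ∩ {z | (∀ k < n, Fn k z = 0) ∧ G s z = 0})) ∧
    ∀ s < r, ∀ s' < r, s ≠ s' → ∀ z, ¬ (G s z = 0 ∧ G s' z = 0)

theorem good_of_le {Z : Type} [TopologicalSpace Z] {φ : ℕ → Z → ℝ} {L : Set Z} {n : ℕ} {i : ℕ → ℕ}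
    {r : ℕ} {β β' : Ordinal.{0}} (h : β ≤ β') (hg : Good φ L n i r β) : Good φ L n i r β' := by
  obtain ⟨Fn, G, h1, h2, h3⟩ := hg
  refine ⟨Fn, G, h1, fun s hs => ?_, h3⟩
  obtain ⟨e1, e2, e3, e4⟩ := h2 s hs
  exact ⟨e1, e2, e3, e4.mono h⟩

theorem exists_good {Z : Type} [TopologicalSpace Z] [MetrizableSpace Z] {φ : ℕ → Z → ℝ}
    (hφ : ∀ i, Continuous (φ i)) {lam : Ordinal.{0}} (hlam : Order.IsSuccLimit lam) (n : ℕ) :
    ∀ L : Set Z, IsClosed L → TrIndLE (lam + n) ↥L →
      ∃ b : ℕ → Ordinal.{0}, (∀ r, b r < lam) ∧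
        ∀ i : ℕ → ℕ, ∃ r₀, ∀ r ≥ r₀, Good φ L n i r (b r) := by
  classical
  induction n with
  | zero =>
    intro L hL hLd
    rw [Nat.cast_zero, add_zero] at hLd
    have h1 : ∀ (i r s : ℕ), ∃ G : Z → ℝ, ∃ g : Ordinal.{0}, Continuous G ∧
        (∀ z, φ i z * (2 * r) ≤ 2 * s + 1 → G z < 0) ∧
        (∀ z, 2 * s + 2 ≤ φ i z * (2 * r) → 0 < G z) ∧ g < lam ∧
          TrIndLE g ↥(L ∩ G ⁻¹' {0}) := by
      intro i r s
      have hA : IsClosed {z | φ i z * (2 * r) ≤ 2 * s + 1} :=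
        isClosed_le ((hφ i).mul continuous_const) continuous_const
      have hB : IsClosed {z | 2 * s + 2 ≤ φ i z * (2 * r)} :=
        isClosed_le continuous_const ((hφ i).mul continuous_const)
      obtain ⟨G, hGc, hGA, hGB, hG⟩ := partition hL hLd hA hB (by
        rw [Set.disjoint_left]
        intro z hz hz'
        have h1 : φ i z * (2 * r) ≤ 2 * s + 1 := hz
        have h2 : 2 * s + 2 ≤ φ i z * (2 * r) := hz'
        linarith)
      rcases hG with hG | ⟨g, hg, hG⟩
      · refine ⟨G, 0, hGc, hGA, hGB, hlam.bot_lt, ?_⟩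
        have : IsEmpty ↥(L ∩ G ⁻¹' {0}) := by
          rw [hG]
          infer_instance
        exact trIndLE_of_isEmpty _ _
      · exact ⟨G, g, hGc, hGA, hGB, hg, hG⟩
    choose G g hGc hGA hGB hg hG using h1
    refine ⟨fun r => (Finset.range (r + 1) ×ˢ Finset.range r).sup fun t => g t.1 r t.2,
      fun r => ?_, fun i => ⟨i 0, fun r hr => ?_⟩⟩
    · rw [Finset.sup_lt_iff]
      · intro t _
        exact hg _ _ _
      · exact hlam.bot_lt
    · refine ⟨fun _ _ => 0, fun s => G (i 0) r s, fun k hk => absurd hk (Nat.not_lt_zero k),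
        fun s hs => ⟨hGc _ _ _, fun z hz => hGA _ _ _ z ?_, fun z hz => hGB _ _ _ z ?_, ?_⟩, ?_⟩
      · rw [hz]
        have : (0 : ℝ) ≤ s := Nat.cast_nonneg s
        linarith
      · rw [hz]
        have : (s : ℝ) + 1 ≤ r := by exact_mod_cast hs
        linarith
      · have e1 : (L ∩ {z | (∀ k < 0, (fun _ _ => (0 : ℝ) : ℕ → Z → ℝ) k z = 0) ∧
            G (i 0) r s z = 0}) = L ∩ G (i 0) r s ⁻¹' {0} := by
          ext z
          simp
        rw [e1]
        refine (hG (i 0) r s).mono ?_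
        exact Finset.le_sup (f := fun t : ℕ × ℕ => g t.1 r t.2)
          (b := (i 0, s)) (by
            rw [Finset.mem_product, Finset.mem_range, Finset.mem_range]
            exact ⟨by omega, hs⟩)
      · intro s hs s' hs' hss' z ⟨h1, h2⟩
        have key : ∀ s : ℕ, G (i 0) r s z = 0 →
            2 * (s : ℝ) + 1 < φ (i 0) z * (2 * r) ∧ φ (i 0) z * (2 * r) < 2 * s + 2 := by
          intro s h0
          constructor
          · by_contra hcon
            have := hGA _ _ _ z (not_lt.1 hcon)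
            linarith
          · by_contra hcon
            have := hGB _ _ _ z (not_lt.1 hcon)
            linarith
        have k1 := key s h1
        have k2 := key s' h2
        have k3 : (s : ℝ) < s' + 1 := by linarith
        have k4 : (s' : ℝ) < s + 1 := by linarith
        have k5 : s < s' + 1 := by exact_mod_cast k3
        have k6 : s' < s + 1 := by exact_mod_cast k4
        omega
  | succ n ih =>
    intro L hL hLd
    have h1 : ∀ i : ℕ, ∃ G : Z → ℝ, Continuous G ∧ (∀ z, φ i z = 0 → G z < 0) ∧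
        (∀ z, φ i z = 1 → 0 < G z) ∧ TrIndLE (lam + n) ↥(L ∩ G ⁻¹' {0}) := by
      intro i
      have hA : IsClosed {z | φ i z = 0} := isClosed_eq (hφ i) continuous_const
      have hB : IsClosed {z | φ i z = 1} := isClosed_eq (hφ i) continuous_const
      obtain ⟨G, hGc, hGA, hGB, hG⟩ := partition hL hLd hA hB (by
        rw [Set.disjoint_left]
        intro z hz hz'
        have h1 : φ i z = 0 := hz
        have h2 : φ i z = 1 := hz'
        linarith)
      refine ⟨G, hGc, hGA, hGB, ?_⟩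
      rcases hG with hG | ⟨g, hg, hG⟩
      · have : IsEmpty ↥(L ∩ G ⁻¹' {0}) := by
          rw [hG]
          infer_instance
        exact trIndLE_of_isEmpty _ _
      · refine hG.mono ?_
        rw [Nat.cast_add, Nat.cast_one, ← add_assoc] at hg
        exact Order.le_of_lt_add_one hg
    choose G hGc hGA hGB hG using h1
    have h2 : ∀ i, ∃ b : ℕ → Ordinal.{0}, (∀ r, b r < lam) ∧
        ∀ j : ℕ → ℕ, ∃ r₀, ∀ r ≥ r₀, Good φ (L ∩ G i ⁻¹' {0}) n j r (b r) := fun i =>
      ih (L ∩ G i ⁻¹' {0}) (hL.inter (isClosed_singleton.preimage (hGc i))) (hG i)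
    choose b hb hbg using h2
    refine ⟨fun r => (Finset.range (r + 1)).sup fun i => b i r, fun r => ?_, fun i => ?_⟩
    · rw [Finset.sup_lt_iff]
      · intro t _
        exact hb _ _
      · exact hlam.bot_lt
    · obtain ⟨r₀, hr₀⟩ := hbg (i 0) fun k => i (k + 1)
      refine ⟨max (i 0) r₀, fun r hr => ?_⟩
      refine good_of_le (β := b (i 0) r) ?_ ?_
      · refine Finset.le_sup (f := fun i => b i r) ?_
        rw [Finset.mem_range]
        have := (le_max_left (i 0) r₀).trans hr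
        omega
      · obtain ⟨Fn, G', e1, e2, e3⟩ := hr₀ r ((le_max_right _ _).trans hr)
        refine ⟨fun k => if k = 0 then G (i 0) else Fn (k - 1), G', ?_, ?_, e3⟩
        · intro k hk
          by_cases hk0 : k = 0
          · simp only [hk0, if_true]
            exact ⟨hGc _, hGA _, hGB _⟩
          · simp only [if_neg hk0]
            obtain ⟨k, rfl⟩ := Nat.exists_eq_succ_of_ne_zero hk0
            exact e1 k (by omega)
        · intro s hs
          obtain ⟨d1, d2, d3, d4⟩ := e2 s hs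
          refine ⟨d1, d2, d3, ?_⟩
          have e4 : (L ∩ {z | (∀ k < n + 1, (if k = 0 then G (i 0) else Fn (k - 1)) z = 0) ∧
              G' s z = 0}) = (L ∩ G (i 0) ⁻¹' {0}) ∩ {z | (∀ k < n, Fn k z = 0) ∧
                G' s z = 0} := by
            ext z
            simp only [mem_inter_iff, mem_ofPred_eq, mem_preimage, mem_singleton_iff]
            constructor
            · rintro ⟨h1, h2, h3⟩
              refine ⟨⟨h1, ?_⟩, fun k hk => ?_, h3⟩
              · simpa using h2 0 (Nat.succ_pos n)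
              · simpa using h2 (k + 1) (by omega)
            · rintro ⟨⟨h1, h0⟩, h2, h3⟩
              refine ⟨h1, fun k hk => ?_, h3⟩
              by_cases hk0 : k = 0
              · simpa [hk0] using h0
              · rw [if_neg hk0]
                exact h2 (k - 1) (by omega)
          rw [e4]
          exact d4

end Pool.Agent.Helper53_TrInd
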