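import Pool.Agent.Helper53_TrInd.Space

/-!
# The dimension of the compacta
-/

namespace Pool.Agent.Helper53_TrInd

open Set Topology Filter

theorem real_loc (a : ℝ) : ∀ᶠ t : ℝ in 𝓝 a, ((∃ k : ℤ, t = k) → t = a) ∧
    ((¬ ∃ k : ℤ, a = k) → ⌊t⌋ = ⌊a⌋) := by
  by_cases h : ∃ k : ℤ, a = k
  · obtain ⟨k, rfl⟩ := h
    filter_upwards [Metric.ball_mem_nhds (k : ℝ) one_pos] with t ht
    refine ⟨?_, fun h => absurd ⟨k, rfl⟩ h⟩
    rintro ⟨l, rfl⟩
    rw [Metric.mem_ball, Real.dist_eq] at ht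
    have h1 : |l - k| < 1 := by exact_mod_cast ht
    have h2 : l - k = 0 := Int.abs_lt_one_iff.1 h1
    have h3 : l = k := by omega
    rw [h3]
  · have h1 : (⌊a⌋ : ℝ) < a := lt_of_le_of_ne (Int.floor_le a) fun h2 => h ⟨⌊a⌋, h2.symm⟩
    have h2 : a < ⌊a⌋ + 1 := Int.lt_floor_add_one a
    filter_upwards [Ioo_mem_nhds h1 h2] with t ht
    refine ⟨?_, fun _ => ?_⟩
    · rintro ⟨k, rfl⟩
      have h3 : ⌊a⌋ < k := by exact_mod_cast ht.1
      have h4 : k < ⌊a⌋ + 1 := by exact_mod_cast ht.2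
      omega
    · rw [Int.floor_eq_iff]
      exact ⟨ht.1.le, ht.2⟩

theorem coord_loc {X : Type*} [TopologicalSpace X] {f : X → ℝ} (hf : Continuous f) (q : ℕ)
    (p : X) : ∀ᶠ p' in 𝓝 p, (Dy q (f p') → f p' = f p) ∧
    (¬ Dy q (f p) → ⌊2 ^ q * f p'⌋ = ⌊2 ^ q * f p⌋) := by
  have h1 : Continuous fun p => 2 ^ q * f p := by fun_prop
  filter_upwards [h1.continuousAt.eventually (real_loc (2 ^ q * f p))] with p' hp'
  refine ⟨fun h => ?_, hp'.2⟩
  have h2 := hp'.1 h
  exact mul_left_cancel₀ (by positivity) h2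

variable {n : ℕ} {o : ℕ → Ordinal.{0}} {b : ℕ → Ordinal.{0}}

theorem z_loc (q : ℕ) (p : Yset n o b) (v : Node) : ∀ᶠ p' in 𝓝 p,
    ((p'.1.2 v ≠ 0 ∧ Dy q (p'.1.2 v)) → p'.1.2 v = p.1.2 v) ∧
    (¬ (p.1.2 v ≠ 0 ∧ Dy q (p.1.2 v)) → ⌊2 ^ q * p'.1.2 v⌋ = ⌊2 ^ q * p.1.2 v⌋) := by
  have hc : Continuous fun p : Yset n o b => p.1.2 v := by fun_prop
  by_cases h0 : p.1.2 v = 0
  · have h1 : Continuous fun p : Yset n o b => 2 ^ q * p.1.2 v := by fun_prop
    have h2 : ∀ᶠ p' in 𝓝 p, 2 ^ q * p'.1.2 v < 1 := by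
      apply h1.continuousAt.eventually_lt continuousAt_const
      rw [h0]
      norm_num
    filter_upwards [h2] with p' hp'
    have h3 : 0 ≤ p'.1.2 v := (p'.2.2.1 v).1
    have h4 : 0 ≤ 2 ^ q * p'.1.2 v := by positivity
    constructor
    · rintro ⟨h5, k, hk⟩
      exfalso
      have h6 : 0 < 2 ^ q * p'.1.2 v := by
        have : 0 < p'.1.2 v := lt_of_le_of_ne h3 (Ne.symm h5)
        positivity
      rw [hk] at h6 hp'
      have h7 : 0 < k := by exact_mod_cast h6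
      have h8 : k < 1 := by exact_mod_cast hp'
      omega
    · intro _
      rw [h0, mul_zero, Int.floor_zero, Int.floor_eq_zero_iff]
      exact ⟨h4, hp'⟩
  · filter_upwards [coord_loc hc q p] with p' hp'
    exact ⟨fun h => hp'.1 h.2, fun h => hp'.2 fun h1 => h ⟨h0, h1⟩⟩

theorem rho_loc {lam : Ordinal.{0}} (hlam : Order.IsSuccLimit lam) (hb : ∀ m, b m < lam)
    (q : ℕ) (p : Yset n o b) : ∀ᶠ p' in 𝓝 p,
    rho o b lam q p.1 ≤ rho o b lam q p'.1 ∧
      (rho o b lam q p'.1 = rho o b lam q p.1 → kap q p'.1 = kap q p.1) := by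
  classical
  have h1 : ∀ᶠ p' in 𝓝 p, ∀ i : Fin n, (Dy q (p'.1.1 i) → p'.1.1 i = p.1.1 i) ∧
      (¬ Dy q (p.1.1 i) → ⌊2 ^ q * p'.1.1 i⌋ = ⌊2 ^ q * p.1.1 i⌋) := by
    rw [Filter.eventually_all]
    intro i
    exact coord_loc (f := fun p : Yset n o b => p.1.1 i) (by fun_prop) q p
  have h2 : ∀ᶠ p' in 𝓝 p, ∀ v ∈ F q,
      ((p'.1.2 v ≠ 0 ∧ Dy q (p'.1.2 v)) → p'.1.2 v = p.1.2 v) ∧
      (¬ (p.1.2 v ≠ 0 ∧ Dy q (p.1.2 v)) → ⌊2 ^ q * p'.1.2 v⌋ = ⌊2 ^ q * p.1.2 v⌋) := by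
    rw [Filter.eventually_all_finset]
    intro v _
    exact z_loc q p v
  filter_upwards [h1, h2] with p' hx hz
  have hsub : (Finset.univ.filter fun i => ¬ Dy q (p.1.1 i)) ⊆
      Finset.univ.filter fun i => ¬ Dy q (p'.1.1 i) := by
    intro i hi
    simp only [Finset.mem_filter, Finset.mem_univ, true_and] at hi ⊢
    intro h
    rw [(hx i).1 h] at h
    exact hi h
  have hlev : lev q p'.1.2 ⊆ lev q p.1.2 := by
    intro v hv
    simp only [lev, Finset.mem_filter] at hv ⊢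
    have := (hz v hv.1).1 hv.2
    rw [this] at hv
    exact hv
  have hc : free q p.1.1 ≤ free q p'.1.1 := Finset.card_le_card hsub
  have hfree : free q p'.1.1 = 0 → p'.1.1 = p.1.1 := by
    intro h
    funext i
    apply (hx i).1
    by_contra hcon
    have : i ∈ Finset.univ.filter fun i => ¬ Dy q (p'.1.1 i) := by simp [hcon]
    rw [free, Finset.card_eq_zero] at h
    rw [h] at this
    simp at this
  have key := rank_mono (o := o) hlam (Λ := Lam b (act q p.1.1)) (Λ' := Lam b (act q p'.1.1))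
    hc hlev (lev_chain p.2 q)
    (fun h => (rk_lev_le p.2 q h).trans_lt (hb _)) (fun h => by rw [hfree h])
    (Lam_lt hlam hb _) (fun h hf => rk_lev_lt_Lam p.2 q h hf)
  refine ⟨key.1, fun he => ?_⟩
  obtain ⟨e1, e2⟩ := key.2 he
  have e3 : (Finset.univ.filter fun i => ¬ Dy q (p.1.1 i)) =
      Finset.univ.filter fun i => ¬ Dy q (p'.1.1 i) :=
    Finset.eq_of_subset_of_card_le hsub e1.le
  refine Prod.ext ?_ ?_
  · funext i
    show ⌊2 ^ q * p'.1.1 i⌋ = ⌊2 ^ q * p.1.1 i⌋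
    by_cases hi : Dy q (p.1.1 i)
    · have h3 : i ∉ Finset.univ.filter fun i => ¬ Dy q (p.1.1 i) := by simp [hi]
      rw [e3] at h3
      simp only [Finset.mem_filter, Finset.mem_univ, true_and, not_not] at h3
      rw [(hx i).1 h3]
    · exact (hx i).2 hi
  · funext v
    show (if v ∈ F q then ⌊2 ^ q * p'.1.2 v⌋ else 0) = if v ∈ F q then ⌊2 ^ q * p.1.2 v⌋ else 0
    by_cases hv : v ∈ F q
    · rw [if_pos hv, if_pos hv]
      by_cases h3 : p.1.2 v ≠ 0 ∧ Dy q (p.1.2 v)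
      · have h4 : v ∈ lev q p.1.2 := by
          simp only [lev, Finset.mem_filter]
          exact ⟨hv, h3⟩
        rw [← e2] at h4
        simp only [lev, Finset.mem_filter] at h4
        rw [(hz v hv).1 h4.2]
      · exact (hz v hv).2 h3
    · rw [if_neg hv, if_neg hv]

theorem rho_anti {lam : Ordinal.{0}} (hlam : Order.IsSuccLimit lam) (hb : ∀ m, b m < lam)
    {q q' : ℕ} (hq : q ≤ q') (p : Yset n o b) :
    rho o b lam q' p.1 ≤ rho o b lam q p.1 := by
  classical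
  have hc : free q' p.1.1 ≤ free q p.1.1 := by
    apply Finset.card_le_card
    intro i hi
    simp only [Finset.mem_filter, Finset.mem_univ, true_and] at hi ⊢
    exact fun h => hi (h.mono hq)
  have hlev : lev q p.1.2 ⊆ lev q' p.1.2 := by
    intro v hv
    simp only [lev, Finset.mem_filter] at hv ⊢
    exact ⟨F_mono hq hv.1, hv.2.1, hv.2.2.mono hq⟩
  have hact : free q p.1.1 = 0 → act q p.1.1 = act q' p.1.1 := by
    intro h
    have hdy : ∀ i, Dy q (p.1.1 i) := by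
      intro i
      by_contra hcon
      have : i ∈ Finset.univ.filter fun i => ¬ Dy q (p.1.1 i) := by simp [hcon]
      rw [free, Finset.card_eq_zero] at h
      rw [h] at this
      simp at this
    ext m
    simp only [act, Finset.mem_filter, Finset.mem_range]
    constructor
    · rintro ⟨h1, h2⟩
      exact ⟨by omega, h2⟩
    · rintro ⟨h1, h2⟩
      refine ⟨?_, h2⟩
      by_contra hcon
      exact h2 fun i => (hdy i).mono (not_lt.1 hcon)
  exact (rank_mono (o := o) hlam (Λ := Lam b (act q' p.1.1)) (Λ' := Lam b (act q p.1.1))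
    hc hlev (lev_chain p.2 q')
    (fun h => (rk_lev_le p.2 q' h).trans_lt (hb _)) (fun h => by rw [hact h])
    (Lam_lt hlam hb _) (fun h hf => rk_lev_lt_Lam p.2 q' h hf)).1

theorem small_of_floor {q : ℕ} {s t : ℝ} (h : ⌊2 ^ q * s⌋ = ⌊2 ^ q * t⌋) :
    |s - t| < (1 / 2) ^ q := by
  have h1 := Int.abs_sub_lt_one_of_floor_eq_floor h
  rw [← mul_sub, abs_mul, abs_of_nonneg (by positivity : (0 : ℝ) ≤ 2 ^ q)] at h1
  rw [one_div, inv_pow, ← one_div, lt_div_iff₀ (by positivity)]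
  linarith

/-- the pairs of points in the same cell at some stage `≥ q` -/
def cellRel (n : ℕ) (o b : ℕ → Ordinal.{0}) (q : ℕ) : Set (Yset n o b × Yset n o b) :=
  {pp | ∃ q' ≥ q, kap q' pp.1.1 = kap q' pp.2.1}

theorem cellRel_anti : Antitone (cellRel n o b) := by
  rintro q q' h pp ⟨k, hk, he⟩
  exact ⟨k, h.trans hk, he⟩

theorem cell_small : (⨅ q, 𝓟 (cellRel n o b q)) ≤ uniformity (Yset n o b) := by
  classical
  have hbasis : (⨅ q, 𝓟 (cellRel n o b q)).HasBasis (fun _ : ℕ => True) (cellRel n o b) :=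
    Filter.hasBasis_iInf_principal cellRel_anti.directed_ge
  have hpow : ∀ ε : ℝ, 0 < ε → ∃ Q : ℕ, (1 / 2 : ℝ) ^ Q < ε := fun ε hε =>
    exists_pow_lt_of_lt_one hε (by norm_num)
  rw [uniformity_subtype, ← Filter.tendsto_iff_comap, uniformity_prod, Pi.uniformity,
    Pi.uniformity, Filter.tendsto_inf, Filter.tendsto_comap_iff, Filter.tendsto_comap_iff,
    Filter.tendsto_iInf, Filter.tendsto_iInf]
  constructor
  · intro i
    rw [Filter.tendsto_comap_iff]
    rw [hbasis.tendsto_iff Metric.uniformity_basis_dist]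
    intro ε hε
    obtain ⟨Q, hQ⟩ := hpow ε hε
    refine ⟨Q, trivial, ?_⟩
    rintro ⟨p, p'⟩ ⟨q', hq', he⟩
    have h1 : ⌊2 ^ q' * p.1.1 i⌋ = ⌊2 ^ q' * p'.1.1 i⌋ := congrFun (congrArg Prod.fst he) i
    show dist (p.1.1 i) (p'.1.1 i) < ε
    rw [Real.dist_eq]
    refine (small_of_floor h1).trans_le (le_trans ?_ hQ.le)
    exact pow_le_pow_of_le_one (by norm_num) (by norm_num) hq'
  · intro v
    rw [Filter.tendsto_comap_iff]
    rw [hbasis.tendsto_iff Metric.uniformity_basis_dist]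
    intro ε hε
    obtain ⟨Q, hQ⟩ := hpow ε hε
    refine ⟨max Q (v.1 + v.2.1 + v.2.2 + 1), trivial, ?_⟩
    rintro ⟨p, p'⟩ ⟨q', hq', he⟩
    have hv : v ∈ F q' := by
      simp only [F, Finset.mem_product, Finset.mem_range]
      have := le_max_right Q (v.1 + v.2.1 + v.2.2 + 1)
      omega
    have h1 : (if v ∈ F q' then ⌊2 ^ q' * p.1.2 v⌋ else 0) =
        if v ∈ F q' then ⌊2 ^ q' * p'.1.2 v⌋ else 0 := congrFun (congrArg Prod.snd he) v
    rw [if_pos hv, if_pos hv] at h1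
    show dist (p.1.2 v) (p'.1.2 v) < ε
    rw [Real.dist_eq]
    refine (small_of_floor h1).trans_le (le_trans ?_ hQ.le)
    exact pow_le_pow_of_le_one (by norm_num) (by norm_num) ((le_max_left _ _).trans hq')

theorem mesh (A B : Set (Yset n o b)) (hA : IsClosed A) (hB : IsClosed B) (hAB : Disjoint A B)
    (q : ℕ) : ∃ q' ≥ q, ∃ O : Set (Yset n o b), IsOpen O ∧ A ⊆ O ∧
      ∀ y ∈ O, ∀ y' ∈ B, kap q' y.1 ≠ kap q' y'.1 := by
  obtain ⟨V, hV, hdisj⟩ := hAB.exists_uniform_thickening hA.isCompact hB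
  have h1 := cell_small hV
  obtain ⟨Q, -, hQ⟩ := (Filter.hasBasis_iInf_principal
    (cellRel_anti (n := n) (o := o) (b := b)).directed_ge).mem_iff.1 h1
  refine ⟨max q Q, le_max_left _ _, interior (⋃ x ∈ A, UniformSpace.ball x V), isOpen_interior,
    ?_, ?_⟩
  · intro a ha
    rw [mem_interior_iff_mem_nhds]
    exact mem_of_superset (UniformSpace.ball_mem_nhds a hV) (subset_biUnion_of_mem (u := fun x => UniformSpace.ball x V) ha)
  · intro y hy y' hy' he
    refine Set.disjoint_left.1 hdisj (interior_subset hy) ?_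
    refine mem_biUnion hy' ?_
    exact hQ ⟨max q Q, le_max_right _ _, he.symm⟩

/-- The compactum over the `(N+1)`-cube has large transfinite dimension at most `lam + N`. -/
theorem trIndLE_Yset {lam : Ordinal.{0}} (hlam : Order.IsSuccLimit lam) (hb : ∀ m, b m < lam)
    (N : ℕ) : TrIndLE (lam + N) (Yset (N + 1) o b) := by
  refine trIndLE_of_rank (Y := Yset (N + 1) o b) (fun q p => rho o b lam q p.1)
    (fun q p => kap q p.1) (fun q => ?_) (rho_loc hlam hb)
    (fun q q' p h => rho_anti hlam hb h p) mesh (lam + N) 0 _ id IsClosedEmbedding.id ?_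
  · refine (rho_finite (n := N + 1) (o := o) (b := b) q lam).subset ?_
    rintro _ ⟨p, rfl⟩
    exact ⟨p.1, rfl⟩
  · intro p
    show rank o lam (free 0 p.1.1) (lev 0 p.1.2) (Lam b (act 0 p.1.1)) ≤ lam + N
    have h1 : free 0 p.1.1 ≤ N + 1 := (Finset.card_le_univ _).trans (by simp)
    rw [rank]
    split_ifs with h2 h3
    · exact ((hlam.add_natCast_lt ((rk_lev_le p.2 0 h2).trans_lt (hb _)) _).trans_le
        le_self_add).le
    · exact ((Lam_lt hlam hb _).trans_le le_self_add).le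
    · have : ((free 0 p.1.1 - 1 : ℕ) : Ordinal.{0}) ≤ (N : Ordinal.{0}) := by
        exact_mod_cast (by omega : free 0 p.1.1 - 1 ≤ N)
      gcongr

end Pool.Agent.Helper53_TrInd
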