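import Pool.Agent.Helper53_TrInd.Main

/-!
# All infinite countable ordinals
-/

namespace Pool.Agent.Helper53_TrInd

open Set Topology TopologicalSpace

theorem countable_Iio_of_lt (a : Ordinal.{0}) (h : a < Ordinal.omega 1) :
    Countable (Set.Iio a) := by
  rw [← Cardinal.mk_le_aleph0_iff, Cardinal.mk_Iio_ordinal]
  have h1 : a.card < Cardinal.aleph 1 := by
    rw [← Cardinal.lt_ord, Cardinal.ord_aleph]
    exact h
  have h2 : a.card ≤ Cardinal.aleph0 := by
    rw [← Order.lt_succ_iff, Cardinal.succ_aleph0]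
    exact h1
  calc Cardinal.lift.{1} a.card ≤ Cardinal.lift.{1} Cardinal.aleph0 := Cardinal.lift_le.2 h2
    _ = _ := Cardinal.lift_aleph0

theorem exists_limit_add_nat (a : Ordinal.{0}) (h : Ordinal.omega0 ≤ a) :
    ∃ (l : Ordinal.{0}) (n : ℕ), Order.IsSuccLimit l ∧ a = l + n := by
  obtain ⟨n, hn⟩ := Ordinal.lt_omega0.1 (Ordinal.mod_lt a Ordinal.omega0_ne_zero)
  refine ⟨Ordinal.omega0 * (a / Ordinal.omega0), n, ?_, ?_⟩
  · refine Ordinal.isSuccLimit_mul_left Ordinal.isSuccLimit_omega0 ?_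
    rw [pos_iff_ne_zero]
    intro h0
    have h1 := Ordinal.div_add_mod a Ordinal.omega0
    rw [h0, mul_zero, zero_add] at h1
    have h2 := Ordinal.mod_lt a Ordinal.omega0_ne_zero
    rw [h1] at h2
    exact absurd h h2.not_ge
  · rw [← hn, Ordinal.div_add_mod]

theorem no_universal (α : Ordinal.{0}) (h1 : Ordinal.omega0 ≤ α) (h2 : α < Ordinal.omega 1)
    (Z : Type) [TopologicalSpace Z] [MetrizableSpace Z] [SeparableSpace Z] (hZ : TrIndLE α Z) :
    ∃ (Y : Type) (_ : TopologicalSpace Y), CompactSpace Y ∧ MetrizableSpace Y ∧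
      TrIndLE α Y ∧ ¬ ∃ e : Y → Z, IsEmbedding e := by
  obtain ⟨lam, N, hlam, rfl⟩ := exists_limit_add_nat α h1
  have hl : lam < Ordinal.omega 1 := le_self_add.trans_lt h2
  have : Countable (Set.Iio lam) := countable_Iio_of_lt lam hl
  have : Nonempty (Set.Iio lam) := ⟨⟨0, hlam.bot_lt⟩⟩
  obtain ⟨f, hf⟩ := exists_surjective_nat (Set.Iio lam)
  have : SecondCountableTopology Z := by
    let _ := metrizableSpaceMetric Z
    exact UniformSpace.secondCountable_of_separable Z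
  obtain ⟨Y, tY, e1, e2, e3, e4⟩ := main hlam (o := fun i => (f i).1) (fun β hβ => by
    obtain ⟨i, hi⟩ := hf ⟨β, hβ⟩
    exact ⟨i, by rw [hi]⟩) N Z hZ
  exact ⟨Y, tY, e1, e2, e3, fun ⟨e, he⟩ => e4 e he⟩

end Pool.Agent.Helper53_TrInd
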