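import Pool.Agent.Helper53_TrInd.Diag
import Pool.Agent.Helper53_TrInd.Miranda
import Pool.Agent.Helper53_TrInd.Dim

/-!
# Iterated partitions of small dimension contain vertices
-/

namespace Pool.Agent.Helper53_TrInd

open Set Topology Filter TopologicalSpace

/-- Extension of a function on a closed subset of a space, keeping the signs on two sets. -/
theorem extend_signs {X : Type*} [TopologicalSpace X] [NormalSpace X] {W : Set X}
    (hW : IsClosed W) (f : W → ℝ) (hf : Continuous f) (t : X → ℝ) (ht : Continuous t)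
    (ht0 : ∀ x, 0 ≤ t x) (ht1 : ∀ x, t x ≤ 1) (hA : ∀ x : W, t x = 0 → f x < 0)
    (hB : ∀ x : W, t x = 1 → 0 < f x) :
    ∃ H : X → ℝ, Continuous H ∧ (∀ x, t x = 0 → H x ≤ 0) ∧ (∀ x, t x = 1 → 0 ≤ H x) ∧
      ∀ x : W, H x = 0 → f x = 0 := by
  obtain ⟨g, hg⟩ := ContinuousMap.exists_restrict_eq hW (⟨f, hf⟩ : C(W, ℝ))
  have hgf : ∀ x : W, g x = f x := fun x => by
    have := DFunLike.congr_fun hg x
    simpa using this
  refine ⟨fun x => max (min (g x) (t x)) (-(1 - t x)), ?_, ?_, ?_, ?_⟩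
  · exact (g.continuous.min ht).max (continuous_const.sub ht).neg
  · intro x hx
    simp only [hx]
    exact max_le (min_le_right _ _) (by norm_num)
  · intro x hx
    simp only [hx]
    exact le_max_of_le_right (by norm_num)
  · intro x hx
    simp only [hgf] at hx
    rcases lt_trichotomy (f x) 0 with h | h | h
    · exfalso
      have h1 : t x ≠ 1 := fun h1 => by
        have := hB x h1
        linarith
      have h2 : t x < 1 := lt_of_le_of_ne (ht1 x) h1
      have h3 : max (min (f x) (t x)) (-(1 - t x)) < 0 :=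
        max_lt ((min_le_left _ _).trans_lt h) (by linarith)
      linarith
    · exact h
    · exfalso
      have h1 : t x ≠ 0 := fun h1 => by
        have := hA x h1
        linarith
      have h2 : 0 < t x := lt_of_le_of_ne (ht0 x) (Ne.symm h1)
      have h3 : 0 < max (min (f x) (t x)) (-(1 - t x)) :=
        lt_max_of_lt_left (lt_min h h2)
      linarith

variable {n : ℕ} {o : ℕ → Ordinal.{0}} {b : ℕ → Ordinal.{0}}

/-- If the nodes of a chain `τ` of level `m` are allowed, the `(n + |τ|)`-cube maps to the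
compactum, by `(x, t) ↦ (x, sz m x • t)`. -/
noncomputable def cubeMap (m : ℕ) (τ : Finset Node) (p : Icc (0 : Fin n ⊕ τ → ℝ) 1) : Amb n :=
  open Classical in
  (fun j => p.1 (Sum.inl j), fun v =>
    if h : v ∈ τ then sz m (fun j : Fin n => p.1 (Sum.inl j)) * p.1 (Sum.inr ⟨v, h⟩) else 0)

theorem cubeMap_mem {m : ℕ} {τ : Finset Node} (hτ : IsChn o τ) (hm : ∀ v ∈ τ, v.1 = m)
    (hb : ∀ v ∈ τ, o v.2.1 + (v.2.2 : Ordinal.{0}) ≤ b v.1) (p : Icc (0 : Fin n ⊕ τ → ℝ) 1) :
    cubeMap m τ p ∈ Yset n o b := by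
  classical
  have hp : ∀ j, 0 ≤ p.1 j ∧ p.1 j ≤ 1 := fun j => ⟨p.2.1 j, p.2.2 j⟩
  have hs : ∀ x : Fin n → ℝ, 0 ≤ sz m x := sz_nonneg m
  refine ⟨fun i => hp _, fun v => ?_, fun v w hvw hc => ?_, fun v hv => ?_⟩
  · simp only [cubeMap]
    split_ifs with h
    · rw [hm v h]
      exact ⟨mul_nonneg (hs _) (hp _).1, mul_le_of_le_one_right (hs _) (hp _).2⟩
    · exact ⟨le_rfl, sz_nonneg _ _⟩
  · simp only [cubeMap]
    split_ifs with h h'
    · exact absurd (hτ v h w h' hvw) hc
    · simp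
    · simp
    · simp
  · simp only [cubeMap]
    split_ifs with h
    · exact absurd (hb v h) hv
    · rfl

theorem continuous_cubeMap (m : ℕ) (τ : Finset Node) : Continuous (cubeMap (n := n) m τ) := by
  classical
  have h1 : ∀ j, Continuous fun p : Icc (0 : Fin n ⊕ τ → ℝ) 1 => p.1 j := fun j =>
    (continuous_apply j).comp continuous_subtype_val
  refine Continuous.prodMk (continuous_pi fun j => h1 _) (continuous_pi fun v => ?_)
  by_cases h : v ∈ τ
  · simp only [dif_pos h]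
    exact ((continuous_sz m).comp (continuous_pi fun j => h1 _)).mul (h1 _)
  · simp only [dif_neg h]
    exact continuous_const

/-- **Key lemma.** Let `f 0, …, f N` be continuous functions on the compactum over the
`(N+1)`-cube, negative on the faces `x j = 0` and positive on the faces `x j = 1`. If the set of
common zeros has dimension at most `b m`, it contains a vertex of the grid of mesh `2⁻ᵐ`. -/
theorem key {lam : Ordinal.{0}} (hos : ∀ β < lam, ∃ i, o i = β) (hb : ∀ m, b m < lam) (m : ℕ)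
    (f : Fin n → Yset n o b → ℝ) (hf : ∀ j, Continuous (f j))
    (h0 : ∀ j p, p.1.1 j = 0 → f j p < 0) (h1 : ∀ j p, p.1.1 j = 1 → 0 < f j p)
    (hd : TrIndLE (b m) ↥{p : Yset n o b | ∀ j, f j p = 0}) :
    ∃ p : Yset n o b, (∀ j, Dy m (p.1.1 j)) ∧ p.1.2 = 0 ∧ ∀ j, f j p = 0 := by
  classical
  by_contra hcon
  push Not at hcon
  set S : Set (Yset n o b) := {p | ∀ j, f j p = 0} with hS
  set W : Set (Yset n o b) := S ∩ {p | ∀ v : Node, v.1 ≠ m → p.1.2 v = 0} with hWdef
  have hSc : IsClosed S := by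
    rw [hS]
    simp only [ofPred_forall]
    exact isClosed_iInter fun j => isClosed_eq (hf j) continuous_const
  have hz : ∀ v : Node, Continuous fun p : Yset n o b => p.1.2 v := fun v => by fun_prop
  have hWc : IsClosed W := by
    refine hSc.inter ?_
    simp only [ofPred_forall]
    exact isClosed_iInter fun v => isClosed_iInter fun _ => isClosed_eq (hz v) continuous_const
  have hWd : TrIndLE (b m) ↥W := hd.of_closed_subset hWc inter_subset_left
  have hpos : ∀ p ∈ W, 0 < sz m p.1.1 := by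
    intro p hp
    refine lt_of_le_of_ne (sz_nonneg _ _) fun h => ?_
    have h2 : p.1.2 = 0 := by
      funext v
      by_cases hv : v.1 = m
      · have h3 := p.2.2.1 v
        rw [hv, ← h] at h3
        exact le_antisymm h3.2 h3.1
      · exact hp.2 v hv
    obtain ⟨j, hj⟩ := hcon p (sz_eq_zero_iff.1 h.symm) h2
    exact hj (hp.1 j)
  have hzW : ∀ v : Node, Continuous fun w : W => w.1.1.2 v := fun v =>
    (hz v).comp continuous_subtype_val
  have hsW : Continuous fun w : W => sz m w.1.1.1 := by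
    have : Continuous fun w : W => w.1.1.1 := by fun_prop
    exact (continuous_sz m).comp this
  have : MetrizableSpace (Amb n) := inferInstance
  obtain ⟨τ, h, hτ1, hτ2, hτ3, hτ4⟩ := inessential (W := W) (o := o) hos m
    (fun v => {w : W | w.1.1.2 v = 0}) (fun v => {w : W | w.1.1.2 v = sz m w.1.1.1})
    (fun v _ => isClosed_eq (hzW v) continuous_const) (fun v _ => isClosed_eq (hzW v) hsW)
    (fun v _ => by
      rw [Set.disjoint_left]
      intro w hw hw'
      have h2 := hpos w.1 w.2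
      have h3 : w.1.1.2 v = 0 := hw
      have h4 : w.1.1.2 v = sz m w.1.1.1 := hw'
      linarith) (b m) (hb m) univ isClosed_univ
      (hWd.of_isClosedEmbedding (isClosed_univ.isClosedEmbedding_subtypeVal)) 0
  have hall : ∀ v ∈ τ, o v.2.1 + (v.2.2 : Ordinal.{0}) ≤ b v.1 := by
    intro v hv
    have := (hτ1 v hv).2.2
    rw [(hτ1 v hv).1]
    simpa using this
  have hlevel : ∀ v ∈ τ, v.1 = m := fun v hv => (hτ1 v hv).1
  -- the cube
  let Φ : Icc (0 : Fin n ⊕ τ → ℝ) 1 → Yset n o b := fun p =>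
    ⟨cubeMap m τ p, cubeMap_mem hτ2 hlevel hall p⟩
  have hΦ : Continuous Φ := (continuous_cubeMap m τ).subtype_mk _
  have hΦz : ∀ (p : Icc (0 : Fin n ⊕ τ → ℝ) 1) (v : τ),
      (Φ p).1.2 v.1 = sz m (Φ p).1.1 * p.1 (Sum.inr v) := by
    intro p v
    show (if h : v.1 ∈ τ then sz m (fun j : Fin n => p.1 (Sum.inl j)) *
      p.1 (Sum.inr ⟨v.1, h⟩) else 0) = _
    rw [dif_pos v.2]
    rfl
  have hΦz' : ∀ (p : Icc (0 : Fin n ⊕ τ → ℝ) 1) (v : Node), v.1 ≠ m → (Φ p).1.2 v = 0 := by
    intro p v hv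
    show (if h : v ∈ τ then sz m (fun j : Fin n => p.1 (Sum.inl j)) *
      p.1 (Sum.inr ⟨v, h⟩) else 0) = 0
    rw [dif_neg fun h => hv (hlevel v h)]
  have hWK : IsClosed (Φ ⁻¹' W) := hWc.preimage hΦ
  have hcoord : ∀ j, Continuous fun p : Icc (0 : Fin n ⊕ τ → ℝ) 1 => p.1 j := fun j =>
    (continuous_apply j).comp continuous_subtype_val
  have hext : ∀ v : τ, ∃ H : Icc (0 : Fin n ⊕ τ → ℝ) 1 → ℝ, Continuous H ∧
      (∀ x, x.1 (Sum.inr v) = 0 → H x ≤ 0) ∧ (∀ x, x.1 (Sum.inr v) = 1 → 0 ≤ H x) ∧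
      ∀ x : Φ ⁻¹' W, H x = 0 → h v.1 ⟨Φ x.1, x.2⟩ = 0 := by
    intro v
    have hc : Continuous fun x : Φ ⁻¹' W => h v.1 ⟨Φ x.1, x.2⟩ :=
      (hτ3 v.1 v.2).1.comp ((hΦ.comp continuous_subtype_val).subtype_mk _)
    refine extend_signs hWK _ hc (fun x => x.1 (Sum.inr v)) (hcoord _)
      (fun x => x.2.1 _) (fun x => x.2.2 _) (fun x hx => ?_) (fun x hx => ?_)
    · apply (hτ3 v.1 v.2).2.1
      show (Φ x.1).1.2 v.1 = 0
      rw [hΦz, hx, mul_zero]
    · apply (hτ3 v.1 v.2).2.2
      show (Φ x.1).1.2 v.1 = sz m (Φ x.1).1.1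
      rw [hΦz, hx, mul_one]
  choose H hHc hH0 hH1 hHW using hext
  obtain ⟨x, hx⟩ := miranda (ι := Fin n ⊕ τ)
    (fun j => Sum.elim (fun j => fun p => f j (Φ p)) (fun v => H v) j)
    (by
      rintro (j | v)
      · exact (hf j).comp hΦ
      · exact hHc v)
    (by
      rintro (j | v) x hx
      · exact (h0 j (Φ x) hx).le
      · exact hH0 v x hx)
    (by
      rintro (j | v) x hx
      · exact (h1 j (Φ x) hx).le
      · exact hH1 v x hx)
  have hxW : Φ x ∈ W := ⟨fun j => hx (Sum.inl j), hΦz' x⟩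
  obtain ⟨v, hv, hne⟩ := hτ4 ⟨Φ x, hxW⟩ (mem_univ _)
  exact hne (hHW ⟨v, hv⟩ ⟨x, hxW⟩ (hx (Sum.inr ⟨v, hv⟩)))

end Pool.Agent.Helper53_TrInd
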