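import Pool.Agent.Helper53_TrInd.Key

/-!
# No universal spaces
-/

namespace Pool.Agent.Helper53_TrInd

open Set Topology Filter TopologicalSpace

/-- the number of steps needed at the level `m` -/
def steps (N m : ℕ) : ℕ := (2 ^ m + 1) ^ (N + 1) + 1

theorem le_steps (N m : ℕ) : m ≤ steps N m := by
  have h1 : m < 2 ^ m := Nat.lt_two_pow_self
  have h2 : 2 ^ m + 1 ≤ (2 ^ m + 1) ^ (N + 1) := Nat.le_self_pow (by omega) _
  unfold steps
  omega

theorem main {lam : Ordinal.{0}} (hlam : Order.IsSuccLimit lam) {o : ℕ → Ordinal.{0}}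
    (hos : ∀ β < lam, ∃ i, o i = β) (N : ℕ) (Z : Type) [TopologicalSpace Z] [MetrizableSpace Z]
    [SecondCountableTopology Z] (hZ : TrIndLE (lam + N) Z) :
    ∃ (Y : Type) (_ : TopologicalSpace Y), CompactSpace Y ∧ MetrizableSpace Y ∧
      TrIndLE (lam + N) Y ∧ ∀ e : Y → Z, ¬ IsEmbedding e := by
  classical
  obtain ⟨φ, hφc, hφ⟩ := exists_urysohn_family Z
  obtain ⟨b₀, hb₀, hgood⟩ := exists_good hφc hlam N univ isClosed_univ
    (hZ.of_isClosedEmbedding (isClosed_univ.isClosedEmbedding_subtypeVal))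
  set b : ℕ → Ordinal.{0} := fun m => b₀ (steps N m) with hbdef
  have hb : ∀ m, b m < lam := fun m => hb₀ _
  refine ⟨Yset (N + 1) o b, inferInstance, inferInstance, inferInstance,
    trIndLE_Yset hlam hb N, ?_⟩
  intro e he
  -- the faces
  have hface : ∀ j : Fin (N + 1), ∃ i, (∀ p : Yset (N + 1) o b, p.1.1 j = 0 → φ i (e p) = 0) ∧
      ∀ p : Yset (N + 1) o b, p.1.1 j = 1 → φ i (e p) = 1 := by
    intro j
    have hj : Continuous fun p : Yset (N + 1) o b => p.1.1 j := by fun_prop
    have h0 : IsCompact (e '' {p | p.1.1 j = 0}) :=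
      (isClosed_eq hj continuous_const).isCompact.image he.continuous
    have h1 : IsCompact (e '' {p | p.1.1 j = 1}) :=
      (isClosed_eq hj continuous_const).isCompact.image he.continuous
    obtain ⟨i, hi0, hi1⟩ := hφ _ _ h0 h1 (by
      rw [Set.disjoint_left]
      rintro _ ⟨p, hp, rfl⟩ ⟨p', hp', hpp'⟩
      have := he.injective hpp'
      rw [this] at hp'
      have h2 : p.1.1 j = 0 := hp
      have h3 : p.1.1 j = 1 := hp'
      linarith)
    exact ⟨i, fun p hp => hi0 _ ⟨p, hp, rfl⟩, fun p hp => hi1 _ ⟨p, hp, rfl⟩⟩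
  choose i₀ hi0 hi1 using hface
  obtain ⟨I, hi⟩ : ∃ I : ℕ → ℕ, ∀ (k : ℕ) (h : k < N + 1), I k = i₀ ⟨k, h⟩ :=
    ⟨fun k => if h : k < N + 1 then i₀ ⟨k, h⟩ else 0, fun k h => dif_pos h⟩
  obtain ⟨r₀, hr₀⟩ := hgood I
  obtain ⟨Fn, G, hFn, hG, hGd⟩ := hr₀ (steps N r₀) (le_steps N r₀)
  set m := r₀ with hm
  -- each of the partitions contains a vertex
  have hkey : ∀ s < steps N m, ∃ p : Yset (N + 1) o b, (∀ j, Dy m (p.1.1 j)) ∧ p.1.2 = 0 ∧
      G s (e p) = 0 := by
    intro s hs
    obtain ⟨hGc, hG0, hG1, hGdim⟩ := hG s hs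
    let f : Fin (N + 1) → Yset (N + 1) o b → ℝ := fun j p =>
      if j.1 < N then Fn j.1 (e p) else G s (e p)
    have hf1 : ∀ (j : Fin (N + 1)) p, j.1 < N → f j p = Fn j.1 (e p) := fun j p h => if_pos h
    have hf2 : ∀ (j : Fin (N + 1)) p, ¬ j.1 < N → f j p = G s (e p) := fun j p h => if_neg h
    have hfc : ∀ j, Continuous (f j) := by
      intro j
      by_cases hj : j.1 < N
      · have : f j = fun p => Fn j.1 (e p) := funext fun p => hf1 j p hj
        rw [this]
        exact (hFn j.1 hj).1.comp he.continuous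
      · have : f j = fun p => G s (e p) := funext fun p => hf2 j p hj
        rw [this]
        exact hGc.comp he.continuous
    have hlast : ∀ j : Fin (N + 1), ¬ j.1 < N → j = ⟨N, Nat.lt_succ_self N⟩ := by
      intro j hj
      apply Fin.ext
      have := j.2
      show j.1 = N
      omega
    obtain ⟨p, hp1, hp2, hp3⟩ := key hos hb m f hfc
      (by
        intro j p hp
        by_cases hj : j.1 < N
        · rw [hf1 j p hj]
          apply (hFn j.1 hj).2.1
          rw [hi j.1 j.2]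
          exact hi0 j p hp
        · rw [hf2 j p hj]
          apply hG0
          rw [hi N (Nat.lt_succ_self N)]
          rw [hlast j hj] at hp
          exact hi0 _ p hp)
      (by
        intro j p hp
        by_cases hj : j.1 < N
        · rw [hf1 j p hj]
          apply (hFn j.1 hj).2.2
          rw [hi j.1 j.2]
          exact hi1 j p hp
        · rw [hf2 j p hj]
          apply hG1
          rw [hi N (Nat.lt_succ_self N)]
          rw [hlast j hj] at hp
          exact hi1 _ p hp)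
      (by
        have hcl : IsClosed {p : Yset (N + 1) o b | ∀ j, f j p = 0} := by
          simp only [ofPred_forall]
          exact isClosed_iInter fun j => isClosed_eq (hfc j) continuous_const
        have : CompactSpace ↥{p : Yset (N + 1) o b | ∀ j, f j p = 0} :=
          isCompact_iff_compactSpace.1 hcl.isCompact
        have hmem : ∀ p : ↥{p : Yset (N + 1) o b | ∀ j, f j p = 0},
            e p.1 ∈ univ ∩ {z | (∀ k < N, Fn k z = 0) ∧ G s z = 0} := by
          intro p
          refine ⟨mem_univ _, fun k hk => ?_, ?_⟩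
          · have := p.2 ⟨k, by omega⟩
            rwa [hf1 _ _ hk] at this
          · have := p.2 ⟨N, Nat.lt_succ_self N⟩
            rwa [hf2 _ _ (lt_irrefl N)] at this
        refine TrIndLE.of_isClosedEmbedding (j := fun p => ⟨e p.1, hmem p⟩) ?_ hGdim
        refine Continuous.isClosedEmbedding ?_ ?_
        · exact (he.continuous.comp continuous_subtype_val).subtype_mk _
        · intro p p' hpp'
          have h1 : e p.1 = e p'.1 := congrArg Subtype.val hpp'
          exact Subtype.ext (he.injective h1))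
    refine ⟨p, hp1, hp2, ?_⟩
    have := hp3 ⟨N, Nat.lt_succ_self N⟩
    rwa [hf2 _ _ (lt_irrefl N)] at this
  have hne : Nonempty (Yset (N + 1) o b) := ⟨(hkey 0 (Nat.succ_pos _)).choose⟩
  choose! p hp1 hp2 hp3 using hkey
  -- pigeonhole
  have hbd : ∀ s < steps N m, ∀ j, ⌊2 ^ m * (p s).1.1 j⌋.toNat < 2 ^ m + 1 := by
    intro s hs j
    have h1 := (p s).2.1 j
    have h2 : 2 ^ m * (p s).1.1 j ≤ 2 ^ m := mul_le_of_le_one_right (by positivity) h1.2
    have h3 : ⌊2 ^ m * (p s).1.1 j⌋ ≤ 2 ^ m := by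
      have := Int.floor_le_floor h2
      have h4 : ⌊(2 : ℝ) ^ m⌋ = 2 ^ m := by
        have : ((2 : ℝ) ^ m) = ((2 ^ m : ℤ) : ℝ) := by push_cast; rfl
        rw [this, Int.floor_intCast]
      rwa [h4] at this
    have h5 : ⌊2 ^ m * (p s).1.1 j⌋.toNat ≤ 2 ^ m := by
      rw [Int.toNat_le]
      exact_mod_cast h3
    omega
  let c : Fin (steps N m) → (Fin (N + 1) → Fin (2 ^ m + 1)) := fun s j =>
    ⟨⌊2 ^ m * (p s).1.1 j⌋.toNat, hbd s s.2 j⟩
  obtain ⟨s, s', hss', hcs⟩ := Fintype.exists_ne_map_eq_of_card_lt c (by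
    simp only [Fintype.card_pi, Fintype.card_fin, Finset.prod_const, Finset.card_univ]
    exact Nat.lt_succ_self _)
  have hpp : p s = p s' := by
    apply Subtype.ext
    refine Prod.ext (funext fun j => ?_) ((hp2 s s.2).trans (hp2 s' s'.2).symm)
    obtain ⟨k, hk⟩ := hp1 s s.2 j
    obtain ⟨k', hk'⟩ := hp1 s' s'.2 j
    have h1 : ⌊2 ^ m * (p s).1.1 j⌋.toNat = ⌊2 ^ m * (p s').1.1 j⌋.toNat :=
      congrArg Fin.val (congrFun hcs j)
    rw [hk, hk', Int.floor_intCast, Int.floor_intCast] at h1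
    have h2 : 0 ≤ k := by
      have h3 : (0 : ℝ) ≤ 2 ^ m * (p s).1.1 j :=
        mul_nonneg (by positivity) ((p s).2.1 j).1
      rw [hk] at h3
      exact_mod_cast h3
    have h2' : 0 ≤ k' := by
      have h3 : (0 : ℝ) ≤ 2 ^ m * (p s').1.1 j :=
        mul_nonneg (by positivity) ((p s').2.1 j).1
      rw [hk'] at h3
      exact_mod_cast h3
    have h4 : k = k' := by omega
    rw [← h4] at hk'
    exact mul_left_cancel₀ (by positivity) (hk.trans hk'.symm)
  refine hGd s s.2 s' s'.2 (fun h => hss' (Fin.ext h)) (e (p s)) ⟨hp3 s s.2, ?_⟩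
  rw [hpp]
  exact hp3 s' s'.2

end Pool.Agent.Helper53_TrInd
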