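import Pool.Agent.Helper53_TrInd.Rank

/-!
# Partitions as zero sets
-/

namespace Pool.Agent.Helper53_TrInd

open Set Topology Filter TopologicalSpace

theorem exists_zero_fun {Z : Type} [TopologicalSpace Z] [MetrizableSpace Z] {C : Set Z}
    (hC : IsClosed C) : ∃ g : Z → ℝ, Continuous g ∧ (∀ z, 0 ≤ g z) ∧ ∀ z, g z = 0 ↔ z ∈ C := by
  let _ := metrizableSpaceMetric Z
  rcases C.eq_empty_or_nonempty with h | h
  · refine ⟨fun _ => 1, continuous_const, fun _ => zero_le_one, fun z => ?_⟩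
    simp [h]
  · refine ⟨fun z => Metric.infDist z C, Metric.continuous_infDist_pt C,
      fun _ => Metric.infDist_nonneg, fun z => ?_⟩
    exact (hC.mem_iff_infDist_zero h).symm

/-- In a metrizable space `Z`, a closed set `L` of dimension at most `β` is cut, between two
disjoint closed sets of `Z`, by the zero set of a continuous function on `Z` in a set of smaller
dimension. -/
theorem partition {Z : Type} [TopologicalSpace Z] [MetrizableSpace Z] {β : Ordinal.{0}}
    {L : Set Z} (hL : IsClosed L) (h : TrIndLE β ↥L) {A B : Set Z} (hA : IsClosed A)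
    (hB : IsClosed B) (hAB : Disjoint A B) :
    ∃ G : Z → ℝ, Continuous G ∧ (∀ z ∈ A, G z < 0) ∧ (∀ z ∈ B, 0 < G z) ∧
      ((L ∩ G ⁻¹' {0} = ∅) ∨ ∃ β' < β, TrIndLE β' ↥(L ∩ G ⁻¹' {0})) := by
  let _ := metrizableSpaceMetric Z
  obtain ⟨V, hV, hAV, hVB⟩ := normal_exists_closure_subset hA hB.isOpen_compl
    (Set.disjoint_left.1 hAB)
  rw [trIndLE_iff] at h
  obtain ⟨U, hU, hAU, hUV, hfr⟩ := h (Subtype.val ⁻¹' A) (Subtype.val ⁻¹' V)
    (hA.preimage continuous_subtype_val) (hV.preimage continuous_subtype_val)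
    (preimage_mono hAV)
  have hemb : IsClosedEmbedding (Subtype.val : L → Z) := hL.isClosedEmbedding_subtypeVal
  have hC1 : IsClosed ((Subtype.val : L → Z) '' closure U ∪ A) :=
    (hemb.isClosedMap _ isClosed_closure).union hA
  have hC2 : IsClosed ((Subtype.val : L → Z) '' Uᶜ ∪ B) :=
    (hemb.isClosedMap _ hU.isClosed_compl).union hB
  obtain ⟨g₁, hg₁c, hg₁0, hg₁⟩ := exists_zero_fun hC1
  obtain ⟨g₂, hg₂c, hg₂0, hg₂⟩ := exists_zero_fun hC2
  have hclV : ∀ z : L, z ∈ closure U → z.1 ∈ closure V := by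
    intro z hz
    have h1 : closure U ⊆ Subtype.val ⁻¹' closure V :=
      (closure_mono hUV).trans (continuous_subtype_val.closure_preimage_subset V)
    exact h1 hz
  have hAC2 : ∀ z ∈ A, z ∉ (Subtype.val : L → Z) '' Uᶜ ∪ B := by
    rintro z hz (⟨w, hw, rfl⟩ | hzB)
    · exact hw (hAU hz)
    · exact Set.disjoint_left.1 hAB hz hzB
  have hBC1 : ∀ z ∈ B, z ∉ (Subtype.val : L → Z) '' closure U ∪ A := by
    rintro z hz (⟨w, hw, rfl⟩ | hzA)
    · exact hVB (hclV w hw) hz
    · exact Set.disjoint_left.1 hAB hzA hz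
  have hpos : ∀ (g : Z → ℝ) (C : Set Z), (∀ z, 0 ≤ g z) → (∀ z, g z = 0 ↔ z ∈ C) →
      ∀ z, z ∉ C → 0 < g z := by
    intro g C h0 h1 z hz
    exact lt_of_le_of_ne (h0 z) fun h => hz ((h1 z).1 h.symm)
  refine ⟨fun z => g₁ z - g₂ z, hg₁c.sub hg₂c, ?_, ?_, ?_⟩
  · intro z hz
    have h1 : g₁ z = 0 := (hg₁ z).2 (Or.inr hz)
    have h2 := hpos g₂ _ hg₂0 hg₂ z (hAC2 z hz)
    simp only [h1]
    linarith
  · intro z hz
    have h1 : g₂ z = 0 := (hg₂ z).2 (Or.inr hz)
    have h2 := hpos g₁ _ hg₁0 hg₁ z (hBC1 z hz)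
    simp only [h1]
    linarith
  · have key : ∀ z (hz : z ∈ L), g₁ z - g₂ z = 0 → (⟨z, hz⟩ : L) ∈ frontier U := by
      intro z hz h0
      rw [frontier, hU.interior_eq]
      by_cases hzU : (⟨z, hz⟩ : L) ∈ U
      · exfalso
        have h1 : g₁ z = 0 := (hg₁ z).2 (Or.inl ⟨⟨z, hz⟩, subset_closure hzU, rfl⟩)
        have h2 : z ∉ (Subtype.val : L → Z) '' Uᶜ ∪ B := by
          rintro (⟨w, hw, hwz⟩ | hzB)
          · have : w = ⟨z, hz⟩ := Subtype.ext hwz
            rw [this] at hw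
            exact hw hzU
          · exact hBC1 z hzB (Or.inl ⟨⟨z, hz⟩, subset_closure hzU, rfl⟩)
        have h3 := hpos g₂ _ hg₂0 hg₂ z h2
        linarith
      · refine ⟨?_, hzU⟩
        have h1 : g₂ z = 0 := (hg₂ z).2 (Or.inl ⟨⟨z, hz⟩, hzU, rfl⟩)
        have h2 : g₁ z = 0 := by linarith
        rcases (hg₁ z).1 h2 with ⟨w, hw, hwz⟩ | hzA
        · have : w = ⟨z, hz⟩ := Subtype.ext hwz
          rw [this] at hw
          exact hw
        · exact absurd (hAU (show (⟨z, hz⟩ : L) ∈ Subtype.val ⁻¹' A from hzA)) hzU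
    rcases hfr with hfr | ⟨β', hβ', hfr⟩
    · left
      rw [Set.eq_empty_iff_forall_notMem]
      rintro z ⟨hz, hz0⟩
      have := key z hz hz0
      rw [hfr] at this
      exact this
    · right
      refine ⟨β', hβ', hfr.of_isClosedEmbedding
        (j := fun z => (⟨⟨z.1, z.2.1⟩, key z.1 z.2.1 z.2.2⟩ : frontier U)) ?_⟩
      have hg : IsClosedEmbedding (Subtype.val : frontier U → L) :=
        isClosed_frontier.isClosedEmbedding_subtypeVal
      rw [← IsClosedEmbedding.of_comp_iff hg, ← IsClosedEmbedding.of_comp_iff hemb]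
      exact (hL.inter ((isClosed_singleton (x := (0 : ℝ))).preimage
        (hg₁c.sub hg₂c))).isClosedEmbedding_subtypeVal

/-- A closed set of dimension at most `β` admits partitions with empty intersection along some
chain of nodes of rank at most `β`. -/
theorem inessential {W : Type} [TopologicalSpace W] [MetrizableSpace W] {o : ℕ → Ordinal.{0}}
    {lam : Ordinal.{0}} (hos : ∀ β < lam, ∃ i, o i = β) (m : ℕ) (A B : Node → Set W)
    (hA : ∀ v, v.1 = m → IsClosed (A v)) (hB : ∀ v, v.1 = m → IsClosed (B v))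
    (hAB : ∀ v, v.1 = m → Disjoint (A v) (B v)) (β : Ordinal.{0}) :
    β < lam → ∀ L : Set W, IsClosed L → TrIndLE β ↥L → ∀ k₀ : ℕ,
      ∃ (τ : Finset Node) (h : Node → W → ℝ),
        (∀ v ∈ τ, v.1 = m ∧ k₀ ≤ v.2.2 ∧ o v.2.1 + ((v.2.2 - k₀ : ℕ) : Ordinal.{0}) ≤ β) ∧
        IsChn o τ ∧
        (∀ v ∈ τ, Continuous (h v) ∧ (∀ w ∈ A v, h v w < 0) ∧ (∀ w ∈ B v, 0 < h v w)) ∧
        ∀ w ∈ L, ∃ v ∈ τ, h v w ≠ 0 := by
  classical
  induction β using WellFoundedLT.induction with
  | _ β ih =>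
    intro hβ L hL hLβ k₀
    obtain ⟨i, hi⟩ := hos β hβ
    set v₀ : Node := (m, i, k₀) with hv₀
    obtain ⟨G, hGc, hGA, hGB, hG⟩ := partition hL hLβ (hA v₀ rfl) (hB v₀ rfl) (hAB v₀ rfl)
    rcases hG with hG | ⟨β', hβ', hG⟩
    · refine ⟨{v₀}, fun _ => G, ?_, ?_, ?_, ?_⟩
      · intro v hv
        rw [Finset.mem_singleton] at hv
        subst hv
        exact ⟨rfl, le_rfl, by simp [hv₀, hi]⟩
      · intro v hv w hw hvw
        rw [Finset.mem_singleton] at hv hw
        exact absurd (hv.trans hw.symm) hvw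
      · intro v hv
        rw [Finset.mem_singleton] at hv
        subst hv
        exact ⟨hGc, hGA, hGB⟩
      · intro w hw
        refine ⟨v₀, Finset.mem_singleton_self _, fun h0 => ?_⟩
        have : w ∈ L ∩ G ⁻¹' {0} := ⟨hw, h0⟩
        rw [hG] at this
        exact this
    · obtain ⟨τ, h, h1, h2, h3, h4⟩ := ih β' hβ' (hβ'.trans hβ) (L ∩ G ⁻¹' {0})
        (hL.inter (isClosed_singleton.preimage hGc)) hG (k₀ + 1)
      have hne : ∀ v ∈ τ, v ≠ v₀ := by
        rintro v hv rfl
        have := (h1 _ hv).2.1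
        simp only [hv₀] at this
        omega
      have hB₀ : ∀ v ∈ τ, Below o v₀ v := by
        intro v hv
        obtain ⟨e1, e2, e3⟩ := h1 v hv
        refine ⟨e1.symm, ?_, ?_⟩
        · simp only [hv₀]
          omega
        · simp only [hv₀, hi]
          have e4 : v.2.2 - k₀ = (v.2.2 - (k₀ + 1)) + 1 := by omega
          rw [e4, Nat.cast_add, ← add_assoc, Nat.cast_one]
          exact Order.add_one_le_of_lt (e3.trans_lt hβ')
      refine ⟨insert v₀ τ, fun v => if v = v₀ then G else h v, ?_, ?_, ?_, ?_⟩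
      · intro v hv
        rcases Finset.mem_insert.1 hv with rfl | hv
        · exact ⟨rfl, le_rfl, by simp [hv₀, hi]⟩
        · obtain ⟨e1, e2, e3⟩ := h1 v hv
          refine ⟨e1, by omega, ?_⟩
          have := (hB₀ v hv).2.2
          simpa [hv₀, hi] using this
      · intro v hv w hw hvw
        rcases Finset.mem_insert.1 hv with rfl | hv
        · rcases Finset.mem_insert.1 hw with rfl | hw
          · exact absurd rfl hvw
          · exact Or.inl (hB₀ w hw)
        · rcases Finset.mem_insert.1 hw with rfl | hw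
          · exact Or.inr (hB₀ v hv)
          · exact h2 v hv w hw hvw
      · intro v hv
        rcases Finset.mem_insert.1 hv with rfl | hv
        · simp only [if_true]
          exact ⟨hGc, hGA, hGB⟩
        · simp only [if_neg (hne v hv)]
          exact h3 v hv
      · intro w hw
        by_cases hGw : G w = 0
        · obtain ⟨v, hv, hvw⟩ := h4 w ⟨hw, hGw⟩
          refine ⟨v, Finset.mem_insert_of_mem hv, ?_⟩
          simp only [if_neg (hne v hv)]
          exact hvw
        · refine ⟨v₀, Finset.mem_insert_self _ _, ?_⟩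
          simpa using hGw

end Pool.Agent.Helper53_TrInd
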