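import Pool.Agent.Helper53_TrInd.Upper

/-!
# Nodes, chains of nodes and their ranks
-/

namespace Pool.Agent.Helper53_TrInd

open Set

/-- A node: the level `m`, the code `i` of an ordinal, and a position `k`. -/
abbrev Node : Type := ℕ × ℕ × ℕ

/-- `w` lies strictly below `v`: same level, larger position, and the ordinal of `w` is smaller
than that of `v` by at least the difference of the positions. -/
def Below (o : ℕ → Ordinal.{0}) (v w : Node) : Prop :=
  v.1 = w.1 ∧ v.2.2 < w.2.2 ∧ o w.2.1 + ((w.2.2 - v.2.2 : ℕ) : Ordinal.{0}) ≤ o v.2.1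

/-- two nodes one of which lies below the other -/
def Comp (o : ℕ → Ordinal.{0}) (v w : Node) : Prop := Below o v w ∨ Below o w v

/-- a set of pairwise comparable nodes -/
def IsChn (o : ℕ → Ordinal.{0}) (τ : Finset Node) : Prop :=
  ∀ v ∈ τ, ∀ w ∈ τ, v ≠ w → Comp o v w

variable {o : ℕ → Ordinal.{0}}

theorem IsChn.subset {τ τ' : Finset Node} (h : IsChn o τ) (hs : τ' ⊆ τ) : IsChn o τ' :=
  fun v hv w hw hvw => h v (hs hv) w (hs hw) hvw

theorem IsChn.pos_injOn {τ : Finset Node} (h : IsChn o τ) :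
    Set.InjOn (fun v : Node => v.2.2) (τ : Set Node) := by
  intro v hv w hw hvw
  by_contra hne
  rcases h v hv w hw hne with h1 | h1
  · exact absurd h1.2.1 (by simp only at hvw; omega)
  · exact absurd h1.2.1 (by simp only at hvw; omega)

theorem IsChn.card_le {τ : Finset Node} (h : IsChn o τ) {k : ℕ} (hk : ∀ v ∈ τ, v.2.2 ≤ k) :
    τ.card ≤ k + 1 := by
  have h1 : (τ.image fun v : Node => v.2.2) ⊆ Finset.range (k + 1) := by
    intro j hj
    obtain ⟨v, hv, rfl⟩ := Finset.mem_image.1 hj
    exact Finset.mem_range.2 (Nat.lt_succ_of_le (hk v hv))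
  have h2 := Finset.card_le_card h1
  rw [Finset.card_image_of_injOn h.pos_injOn, Finset.card_range] at h2
  exact h2

/-- the deepest node of a nonempty set of nodes -/
noncomputable def top (τ : Finset Node) (h : τ.Nonempty) : Node :=
  (τ.exists_max_image (fun v : Node => v.2.2) h).choose

theorem top_mem (τ : Finset Node) (h : τ.Nonempty) : top τ h ∈ τ :=
  (τ.exists_max_image (fun v : Node => v.2.2) h).choose_spec.1

theorem le_top (τ : Finset Node) (h : τ.Nonempty) {v : Node} (hv : v ∈ τ) :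
    v.2.2 ≤ (top τ h).2.2 :=
  (τ.exists_max_image (fun v : Node => v.2.2) h).choose_spec.2 v hv

open Classical in
/-- the rank of a chain of nodes -/
noncomputable def rk (o : ℕ → Ordinal.{0}) (τ : Finset Node) : Ordinal.{0} :=
  if h : τ.Nonempty then
    o (top τ h).2.1 + (((top τ h).2.2 + 1 - τ.card : ℕ) : Ordinal.{0})
  else 0

theorem rk_eq {τ : Finset Node} (h : τ.Nonempty) : rk o τ =
    o (top τ h).2.1 + (((top τ h).2.2 + 1 - τ.card : ℕ) : Ordinal.{0}) := by
  rw [rk, dif_pos h]

theorem rk_lt {τ τ' : Finset Node} (hτ : IsChn o τ) (hs : τ' ⊂ τ) (hne : τ'.Nonempty) :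
    rk o τ < rk o τ' := by
  have hne' : τ.Nonempty := hne.mono hs.1
  rw [rk_eq hne', rk_eq hne]
  set w := top τ hne' with hw
  set v := top τ' hne with hv
  have hwτ : w ∈ τ := top_mem τ hne'
  have hvτ' : v ∈ τ' := top_mem τ' hne
  have hvτ : v ∈ τ := hs.1 hvτ'
  have hcard : τ'.card < τ.card := Finset.card_lt_card hs
  have hc1 : τ.card ≤ w.2.2 + 1 := hτ.card_le fun u hu => le_top τ hne' hu
  have hc2 : τ'.card ≤ v.2.2 + 1 := (hτ.subset hs.1).card_le fun u hu => le_top τ' hne hu
  by_cases hvw : v = w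
  · rw [hvw]
    have : w.2.2 + 1 - τ.card < w.2.2 + 1 - τ'.card := by omega
    have : ((w.2.2 + 1 - τ.card : ℕ) : Ordinal.{0}) < ((w.2.2 + 1 - τ'.card : ℕ) : Ordinal.{0}) :=
      by exact_mod_cast this
    exact add_lt_add_right this _
  · have hB : Below o v w := by
      rcases hτ v hvτ w hwτ hvw with h | h
      · exact h
      · have h5 : v.2.2 ≤ w.2.2 := le_top τ hne' hvτ
        exact absurd h.2.1 (by omega)
    obtain ⟨-, hk, ho⟩ := hB
    have e1 : (w.2.2 - v.2.2) + (v.2.2 + 1 - τ'.card) = w.2.2 + 1 - τ'.card := by omega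
    calc o w.2.1 + ((w.2.2 + 1 - τ.card : ℕ) : Ordinal.{0})
        < o w.2.1 + ((w.2.2 + 1 - τ'.card : ℕ) : Ordinal.{0}) := by
          have : w.2.2 + 1 - τ.card < w.2.2 + 1 - τ'.card := by omega
          have : ((w.2.2 + 1 - τ.card : ℕ) : Ordinal.{0}) <
            ((w.2.2 + 1 - τ'.card : ℕ) : Ordinal.{0}) := by exact_mod_cast this
          exact add_lt_add_right this _
      _ = (o w.2.1 + ((w.2.2 - v.2.2 : ℕ) : Ordinal.{0})) +
            ((v.2.2 + 1 - τ'.card : ℕ) : Ordinal.{0}) := by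
          rw [← e1, Nat.cast_add, add_assoc]
      _ ≤ o v.2.1 + ((v.2.2 + 1 - τ'.card : ℕ) : Ordinal.{0}) := by gcongr

theorem rk_le_of_subset {τ τ' : Finset Node} (hτ : IsChn o τ) (hs : τ' ⊆ τ)
    (hne : τ'.Nonempty) : rk o τ ≤ rk o τ' := by
  rcases hs.eq_or_ssubset with h | h
  · rw [h]
  · exact (rk_lt hτ h hne).le

/-- the rank of a point of the compactum, from the number `c` of free coordinates, the set `τ` of
nodes whose coordinate is at a positive grid value, and the bound `Λ` for the vertices -/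
noncomputable def rank (o : ℕ → Ordinal.{0}) (lam : Ordinal.{0}) (c : ℕ) (τ : Finset Node)
    (Λ : Ordinal.{0}) : Ordinal.{0} :=
  open Classical in
  if τ.Nonempty then rk o τ + (c : Ordinal.{0})
  else if c = 0 then Λ else lam + ((c - 1 : ℕ) : Ordinal.{0})

theorem rank_mono {lam : Ordinal.{0}} (hlam : Order.IsSuccLimit lam) {c c' : ℕ}
    {τ τ' : Finset Node} {Λ Λ' : Ordinal.{0}} (hc : c ≤ c') (hs : τ' ⊆ τ) (hτ : IsChn o τ)
    (hr : τ.Nonempty → rk o τ < lam) (hΛ : c' = 0 → Λ' = Λ) (hΛlam : Λ < lam)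
    (hτΛ : τ.Nonempty → c = 0 → rk o τ < Λ) :
    rank o lam c τ Λ ≤ rank o lam c' τ' Λ' ∧
      (rank o lam c' τ' Λ' = rank o lam c τ Λ → c' = c ∧ τ' = τ) := by
  classical
  have hcc : (c : Ordinal.{0}) ≤ (c' : Ordinal.{0}) := by exact_mod_cast hc
  by_cases h' : τ'.Nonempty
  · have h : τ.Nonempty := h'.mono hs
    rw [rank, rank, if_pos h, if_pos h']
    rcases hs.eq_or_ssubset with he | hss
    · rw [he]
      refine ⟨by gcongr, fun h1 => ⟨?_, rfl⟩⟩
      exact_mod_cast add_left_cancel h1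
    · have h1 := rk_lt hτ hss h'
      have h2 : rk o τ + (c : Ordinal.{0}) < rk o τ' + (c' : Ordinal.{0}) := by
        calc rk o τ + (c : Ordinal.{0}) < (rk o τ + (c : Ordinal.{0})) + 1 := lt_add_one _
          _ = (rk o τ + 1) + (c : Ordinal.{0}) := by
            rw [add_assoc, add_assoc]
            congr 1
            exact_mod_cast add_comm c 1
          _ ≤ rk o τ' + (c : Ordinal.{0}) := by
            gcongr
            exact Order.add_one_le_of_lt h1
          _ ≤ rk o τ' + (c' : Ordinal.{0}) := by gcongr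
      exact ⟨h2.le, fun h3 => absurd h3 h2.ne'⟩
  · have hτ'e : τ' = ∅ := Finset.not_nonempty_iff_eq_empty.1 h'
    by_cases h : τ.Nonempty
    · have key : rank o lam c τ Λ < rank o lam c' τ' Λ' := by
        rw [rank, rank, if_pos h, if_neg h']
        by_cases hc' : c' = 0
        · have hc0 : c = 0 := by omega
          rw [if_pos hc', hΛ hc', hc0]
          simpa using hτΛ h hc0
        · rw [if_neg hc']
          exact (hlam.add_natCast_lt (hr h) c).trans_le le_self_add
      exact ⟨key.le, fun h3 => absurd h3 key.ne'⟩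
    · have hτe : τ = ∅ := Finset.not_nonempty_iff_eq_empty.1 h
      rw [rank, rank, if_neg h, if_neg h', hτe, hτ'e]
      by_cases hc' : c' = 0
      · have hc0 : c = 0 := by omega
        rw [if_pos hc', if_pos hc0, hΛ hc']
        exact ⟨le_rfl, fun _ => ⟨hc'.trans hc0.symm, rfl⟩⟩
      · rw [if_neg hc']
        by_cases hc0 : c = 0
        · rw [if_pos hc0]
          have : Λ < lam + ((c' - 1 : ℕ) : Ordinal.{0}) := hΛlam.trans_le le_self_add
          exact ⟨this.le, fun h3 => absurd h3 this.ne'⟩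
        · rw [if_neg hc0]
          refine ⟨?_, fun h3 => ⟨?_, rfl⟩⟩
          · have : ((c - 1 : ℕ) : Ordinal.{0}) ≤ ((c' - 1 : ℕ) : Ordinal.{0}) := by
              exact_mod_cast Nat.sub_le_sub_right hc 1
            gcongr
          · have h4 : ((c' - 1 : ℕ) : Ordinal.{0}) = ((c - 1 : ℕ) : Ordinal.{0}) :=
              add_left_cancel h3
            have h5 : c' - 1 = c - 1 := by exact_mod_cast h4
            omega

end Pool.Agent.Helper53_TrInd
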