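import Pool.Agent.Helper53_TrInd.Rank

/-!
# The compacta
-/

namespace Pool.Agent.Helper53_TrInd

open Set Topology Filter

/-- the ambient space: `n` cube coordinates and one coordinate for each node -/
abbrev Amb (n : ℕ) : Type := (Fin n → ℝ) × (Node → ℝ)

/-- the size of the fibre of level `m` over the point `x`; it vanishes exactly at the vertices of
the grid of mesh `2⁻ᵐ` -/
noncomputable def sz {n : ℕ} (m : ℕ) (x : Fin n → ℝ) : ℝ :=
  ∑ i, Real.sin (Real.pi * (2 ^ m * x i)) ^ 2

/-- `2 ^ q * t` is an integer -/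
def Dy (q : ℕ) (t : ℝ) : Prop := ∃ k : ℤ, 2 ^ q * t = k

theorem Dy.mono {q q' : ℕ} (h : q ≤ q') {t : ℝ} (ht : Dy q t) : Dy q' t := by
  obtain ⟨k, hk⟩ := ht
  refine ⟨2 ^ (q' - q) * k, ?_⟩
  rw [Int.cast_mul, ← hk, ← mul_assoc]
  congr 1
  push_cast
  rw [← pow_add, Nat.sub_add_cancel h]

theorem sz_nonneg {n : ℕ} (m : ℕ) (x : Fin n → ℝ) : 0 ≤ sz m x :=
  Finset.sum_nonneg fun _ _ => sq_nonneg _

theorem sz_le {n : ℕ} (m : ℕ) (x : Fin n → ℝ) : sz m x ≤ n := by
  calc sz m x ≤ ∑ _i : Fin n, (1 : ℝ) := Finset.sum_le_sum fun _ _ => Real.sin_sq_le_one _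
    _ = n := by simp

theorem continuous_sz {n : ℕ} (m : ℕ) : Continuous (sz (n := n) m) := by
  unfold sz
  fun_prop

theorem sz_eq_zero_iff {n : ℕ} {m : ℕ} {x : Fin n → ℝ} : sz m x = 0 ↔ ∀ i, Dy m (x i) := by
  unfold sz
  rw [Finset.sum_eq_zero_iff_of_nonneg fun i _ => sq_nonneg _]
  refine forall_congr' fun i => ?_
  simp only [Finset.mem_univ, forall_const, pow_eq_zero_iff, ne_eq, OfNat.ofNat_ne_zero,
    not_false_eq_true]
  rw [Real.sin_eq_zero_iff]
  constructor
  · rintro ⟨k, hk⟩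
    refine ⟨k, ?_⟩
    have := Real.pi_ne_zero
    apply mul_left_cancel₀ this
    linarith
  · rintro ⟨k, hk⟩
    exact ⟨k, by rw [hk]; ring⟩

/-- The compactum. `o` enumerates the ordinals below a limit ordinal, `b m` bounds the ranks used
on the level `m`. A point is a pair `(x, z)` with `x` in the `n`-cube; the coordinate `z v` of a
node `v` of level `m` lies between `0` and `sz m x`; the nodes with nonzero coordinates are pairwise
comparable; and nodes of too large rank have zero coordinate. -/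
def Yset (n : ℕ) (o : ℕ → Ordinal.{0}) (b : ℕ → Ordinal.{0}) : Set (Amb n) :=
  {p | (∀ i, p.1 i ∈ Icc (0 : ℝ) 1) ∧ (∀ v : Node, 0 ≤ p.2 v ∧ p.2 v ≤ sz v.1 p.1) ∧
    (∀ v w : Node, v ≠ w → ¬ Comp o v w → p.2 v * p.2 w = 0) ∧
    (∀ v : Node, ¬ o v.2.1 + (v.2.2 : Ordinal.{0}) ≤ b v.1 → p.2 v = 0)}

variable {n : ℕ} {o : ℕ → Ordinal.{0}} {b : ℕ → Ordinal.{0}}

theorem isClosed_Yset : IsClosed (Yset n o b) := by
  have h1 : IsClosed {p : Amb n | ∀ i, p.1 i ∈ Icc (0 : ℝ) 1} := by
    simp only [ofPred_forall]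
    exact isClosed_iInter fun i => isClosed_Icc.preimage (by fun_prop)
  have h2 : IsClosed {p : Amb n | ∀ v : Node, 0 ≤ p.2 v ∧ p.2 v ≤ sz v.1 p.1} := by
    simp only [ofPred_forall]
    refine isClosed_iInter fun v => ?_
    have hz : Continuous fun p : Amb n => p.2 v := by fun_prop
    exact (isClosed_le continuous_const hz).inter
      (isClosed_le hz ((continuous_sz v.1).comp continuous_fst))
  have h3 : IsClosed {p : Amb n | ∀ v w : Node, v ≠ w → ¬ Comp o v w → p.2 v * p.2 w = 0} := by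
    simp only [ofPred_forall]
    refine isClosed_iInter fun v => isClosed_iInter fun w => isClosed_iInter fun _ =>
      isClosed_iInter fun _ => ?_
    exact isClosed_eq (by fun_prop) continuous_const
  have h4 : IsClosed {p : Amb n | ∀ v : Node, ¬ o v.2.1 + (v.2.2 : Ordinal.{0}) ≤ b v.1 →
      p.2 v = 0} := by
    simp only [ofPred_forall]
    refine isClosed_iInter fun v => isClosed_iInter fun _ => ?_
    exact isClosed_eq (by fun_prop) continuous_const
  exact h1.inter (h2.inter (h3.inter h4))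

theorem isCompact_Yset : IsCompact (Yset n o b) := by
  have h : IsCompact ((Set.pi univ fun _ : Fin n => Icc (0 : ℝ) 1) ×ˢ
      (Set.pi univ fun _ : Node => Icc (0 : ℝ) n)) :=
    (isCompact_univ_pi fun _ => isCompact_Icc).prod (isCompact_univ_pi fun _ => isCompact_Icc)
  refine h.of_isClosed_subset isClosed_Yset ?_
  rintro ⟨x, z⟩ ⟨h1, h2, -, -⟩
  exact ⟨fun i _ => h1 i, fun v _ => ⟨(h2 v).1, (h2 v).2.trans (sz_le _ _)⟩⟩

instance : CompactSpace (Yset n o b) := isCompact_iff_compactSpace.1 isCompact_Yset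

open Classical in
/-- the number of coordinates of `x` which are not multiples of `2⁻ᵠ` -/
noncomputable def free (q : ℕ) (x : Fin n → ℝ) : ℕ :=
  (Finset.univ.filter fun i => ¬ Dy q (x i)).card

/-- the nodes considered at stage `q` -/
def F (q : ℕ) : Finset Node := Finset.range q ×ˢ (Finset.range q ×ˢ Finset.range q)

theorem F_mono {q q' : ℕ} (h : q ≤ q') : F q ⊆ F q' := by
  intro v hv
  simp only [F, Finset.mem_product, Finset.mem_range] at hv ⊢
  omega

open Classical in
/-- the nodes of `F q` whose coordinate is a positive multiple of `2⁻ᵠ` -/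
noncomputable def lev (q : ℕ) (z : Node → ℝ) : Finset Node :=
  (F q).filter fun v => z v ≠ 0 ∧ Dy q (z v)

open Classical in
/-- the levels smaller than `q` of which `x` is not a vertex -/
noncomputable def act (q : ℕ) (x : Fin n → ℝ) : Finset ℕ :=
  (Finset.range q).filter fun m => ¬ ∀ i, Dy m (x i)

/-- bound for the ranks over a vertex -/
noncomputable def Lam (b : ℕ → Ordinal.{0}) (s : Finset ℕ) : Ordinal.{0} :=
  s.sup fun m => b m + 1

/-- the rank function -/
noncomputable def rho (o : ℕ → Ordinal.{0}) (b : ℕ → Ordinal.{0}) (lam : Ordinal.{0}) (q : ℕ)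
    (p : Amb n) : Ordinal.{0} :=
  rank o lam (free q p.1) (lev q p.2) (Lam b (act q p.1))

open Classical in
/-- the cell function -/
noncomputable def kap (q : ℕ) (p : Amb n) : (Fin n → ℤ) × (Node → ℤ) :=
  (fun i => ⌊2 ^ q * p.1 i⌋, fun v => if v ∈ F q then ⌊2 ^ q * p.2 v⌋ else 0)

theorem lev_chain {p : Amb n} (hp : p ∈ Yset n o b) (q : ℕ) : IsChn o (lev q p.2) := by
  intro v hv w hw hvw
  by_contra hcon
  have := hp.2.2.1 v w hvw hcon
  simp only [lev, Finset.mem_filter] at hv hw
  rcases mul_eq_zero.1 this with h | h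
  · exact hv.2.1 h
  · exact hw.2.1 h

theorem rk_lev_le {p : Amb n} (hp : p ∈ Yset n o b) (q : ℕ) (hne : (lev q p.2).Nonempty) :
    rk o (lev q p.2) ≤ b (top _ hne).1 := by
  rw [rk_eq hne]
  set w := top _ hne with hw
  have hwm : w ∈ lev q p.2 := top_mem _ hne
  have h1 : o w.2.1 + (w.2.2 : Ordinal.{0}) ≤ b w.1 := by
    by_contra hcon
    have := hp.2.2.2 w hcon
    simp only [lev, Finset.mem_filter] at hwm
    exact hwm.2.1 this
  refine le_trans ?_ h1
  have hpos : 0 < (lev q p.2).card := Finset.card_pos.2 hne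
  have : w.2.2 + 1 - (lev q p.2).card ≤ w.2.2 := by omega
  have : ((w.2.2 + 1 - (lev q p.2).card : ℕ) : Ordinal.{0}) ≤ (w.2.2 : Ordinal.{0}) := by
    exact_mod_cast this
  gcongr

theorem Lam_lt {lam : Ordinal.{0}} (hlam : Order.IsSuccLimit lam) (hb : ∀ m, b m < lam)
    (s : Finset ℕ) : Lam b s < lam := by
  rw [Lam, Finset.sup_lt_iff]
  · intro m _
    exact hlam.add_one_lt (hb m)
  · exact hlam.bot_lt

theorem rk_lev_lt_Lam {p : Amb n} (hp : p ∈ Yset n o b) (q : ℕ) (hne : (lev q p.2).Nonempty)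
    (hfree : free q p.1 = 0) : rk o (lev q p.2) < Lam b (act q p.1) := by
  classical
  set w := top _ hne with hw
  have hwm : w ∈ lev q p.2 := top_mem _ hne
  simp only [lev, Finset.mem_filter] at hwm
  have hdy : ∀ i, Dy q (p.1 i) := by
    intro i
    by_contra hcon
    have : i ∈ Finset.univ.filter fun i => ¬ Dy q (p.1 i) := by simp [hcon]
    rw [free, Finset.card_eq_zero] at hfree
    rw [hfree] at this
    simp at this
  have hact : w.1 ∈ act q p.1 := by
    have h1 : ¬ ∀ i, Dy w.1 (p.1 i) := by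
      intro hcon
      have h2 := sz_eq_zero_iff.2 hcon
      have h3 := hp.2.1 w
      rw [h2] at h3
      exact hwm.2.1 (le_antisymm h3.2 h3.1)
    have h2 : w.1 < q := by
      by_contra hcon
      exact h1 fun i => (hdy i).mono (not_lt.1 hcon)
    simp only [act, Finset.mem_filter, Finset.mem_range]
    exact ⟨h2, h1⟩
  calc rk o (lev q p.2) ≤ b w.1 := rk_lev_le hp q hne
    _ < b w.1 + 1 := lt_add_one _
    _ ≤ _ := Finset.le_sup (f := fun m => b m + 1) hact

theorem rho_finite (q : ℕ) (lam : Ordinal.{0}) :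
    (Set.range fun p : Amb n => rho o b lam q p).Finite := by
  classical
  have h : (Set.range fun p : Amb n => rho o b lam q p) ⊆
      ((Finset.range (n + 1) ×ˢ ((F q).powerset ×ˢ (Finset.range q).powerset)).image
        fun t : ℕ × Finset Node × Finset ℕ => rank o lam t.1 t.2.1 (Lam b t.2.2)) := by
    rintro _ ⟨p, rfl⟩
    simp only [Finset.coe_image, Set.mem_image, Finset.mem_coe]
    refine ⟨(free q p.1, lev q p.2, act q p.1), ?_, rfl⟩
    simp only [Finset.mem_product, Finset.mem_range, Finset.mem_powerset]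
    refine ⟨Nat.lt_succ_of_le ?_, Finset.filter_subset _ _, Finset.filter_subset _ _⟩
    exact (Finset.card_le_univ _).trans (by simp)
  exact (Finset.finite_toSet _).subset h

end Pool.Agent.Helper53_TrInd
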