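import Pool.Agent.Helper53_TrInd.Defs

/-!
# An upper bound for the large transfinite dimension of a compact space
-/

namespace Pool.Agent.Helper53_TrInd

open Topology Set Filter

/-- Upper bound criterion. `ρ q` is a lower semicontinuous ordinal valued function with finite
range, decreasing in `q`; `κ q` is locally constant along the strata of `ρ q`, and the fibres of
`κ q` become small. Then the dimension of a closed set on which `ρ q ≤ γ` is at most `γ`. -/
theorem trIndLE_of_rank {Y : Type} [TopologicalSpace Y] {K : Type*}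
    (ρ : ℕ → Y → Ordinal.{0}) (κ : ℕ → Y → K)
    (hfin : ∀ q, (Set.range (ρ q)).Finite)
    (hloc : ∀ q y, ∀ᶠ y' in 𝓝 y, ρ q y ≤ ρ q y' ∧ (ρ q y' = ρ q y → κ q y' = κ q y))
    (hmono : ∀ q q' y, q ≤ q' → ρ q' y ≤ ρ q y)
    (hmesh : ∀ A B : Set Y, IsClosed A → IsClosed B → Disjoint A B → ∀ q, ∃ q' ≥ q, ∃ O : Set Y,
      IsOpen O ∧ A ⊆ O ∧ ∀ y ∈ O, ∀ y' ∈ B, κ q' y ≠ κ q' y') (γ : Ordinal.{0}) :
    ∀ (q : ℕ) (F : Type) [TopologicalSpace F] (j : F → Y), IsClosedEmbedding j →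
      (∀ x, ρ q (j x) ≤ γ) → TrIndLE γ F := by
  induction γ using WellFoundedLT.induction with
  | _ γ ih =>
    intro q F _ j hj hq
    rw [trIndLE_iff]
    intro A V hA hV hAV
    obtain ⟨q', hqq', O, hO, hAO, hOB⟩ := hmesh (j '' A) (j '' Vᶜ) (hj.isClosedMap _ hA)
      (hj.isClosedMap _ hV.isClosed_compl) (by
        rw [Set.disjoint_left]
        rintro _ ⟨a, ha, rfl⟩ ⟨b, hb, hab⟩
        rw [hj.injective hab] at hb
        exact hb (hAV ha)) q
    have hle : ∀ x, ρ q' (j x) ≤ γ := fun x => (hmono q q' _ hqq').trans (hq x)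
    -- the top stratum
    set E : Set F := {x | ρ q' (j x) = γ} with hE
    have hlocF : ∀ x : F, ∀ᶠ x' in 𝓝 x, ρ q' (j x) ≤ ρ q' (j x') ∧
        (ρ q' (j x') = ρ q' (j x) → κ q' (j x') = κ q' (j x)) := fun x =>
      hj.continuous.continuousAt.eventually (hloc q' (j x))
    set G₁ : Set F := {x | x ∈ E ∧ ∃ x' ∈ E, j x' ∈ O ∧ κ q' (j x') = κ q' (j x)} with hG₁
    set G₂ : Set F := {x | x ∈ E ∧ ¬ ∃ x' ∈ E, j x' ∈ O ∧ κ q' (j x') = κ q' (j x)} with hG₂
    have hstar : ∀ x ∈ E, ∀ᶠ x' in 𝓝 x, x' ∈ E ∧ κ q' (j x') = κ q' (j x) := by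
      intro x hx
      filter_upwards [hlocF x] with x' hx'
      have hx0 : ρ q' (j x) = γ := hx
      have h1 : ρ q' (j x') = γ := le_antisymm (hle x') (hx0 ▸ hx'.1)
      exact ⟨h1, hx'.2 (h1.trans hx0.symm)⟩
    have hG₁o : IsOpen G₁ := by
      rw [isOpen_iff_mem_nhds]
      rintro x ⟨hx, x₁, h1, h2, h3⟩
      filter_upwards [hstar x hx] with x' hx'
      exact ⟨hx'.1, x₁, h1, h2, h3.trans hx'.2.symm⟩
    have hG₂o : IsOpen G₂ := by
      rw [isOpen_iff_mem_nhds]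
      rintro x ⟨hx, hn⟩
      filter_upwards [hstar x hx] with x' hx'
      refine ⟨hx'.1, ?_⟩
      rintro ⟨x₁, h1, h2, h3⟩
      exact hn ⟨x₁, h1, h2, h3.trans hx'.2⟩
    have hdisj : Disjoint G₁ (closure G₂) := by
      apply Disjoint.closure_right _ hG₁o
      rw [Set.disjoint_left]
      rintro x ⟨_, h⟩ ⟨_, h'⟩
      exact h' h
    have hG₁V : G₁ ⊆ V := by
      rintro x ⟨hx, x₁, h1, h2, h3⟩
      by_contra hxV
      exact hOB _ h2 (j x) ⟨x, hxV, rfl⟩ h3
    refine ⟨V \ closure G₂, hV.sdiff isClosed_closure, ?_, sdiff_subset, ?_⟩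
    · intro a ha
      refine ⟨hAV ha, ?_⟩
      have hOa : j ⁻¹' O ∈ 𝓝 a := (hO.preimage hj.continuous).mem_nhds (hAO ⟨a, ha, rfl⟩)
      rw [mem_closure_iff_nhds]
      push Not
      refine ⟨j ⁻¹' O, hOa, ?_⟩
      rw [Set.eq_empty_iff_forall_notMem]
      rintro x ⟨hxO, hx, hn⟩
      exact hn ⟨x, hx, hxO, rfl⟩
    · set U := V \ closure G₂ with hU
      have hUo : IsOpen U := hV.sdiff isClosed_closure
      have hfr : ∀ x ∈ frontier U, x ∉ E := by
        intro x hx hxE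
        by_cases hc : ∃ x' ∈ E, j x' ∈ O ∧ κ q' (j x') = κ q' (j x)
        · have hxG : x ∈ G₁ := ⟨hxE, hc⟩
          have hxU : x ∈ U := ⟨hG₁V hxG, Set.disjoint_left.1 hdisj hxG⟩
          rw [frontier, hUo.interior_eq] at hx
          exact hx.2 hxU
        · have hxG : x ∈ G₂ := ⟨hxE, hc⟩
          have h1 : x ∈ closure U := frontier_subset_closure hx
          obtain ⟨x', hx'1, hx'2⟩ := mem_closure_iff.1 h1 G₂ hG₂o hxG
          exact hx'2.2 (subset_closure hx'1)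
      have hlt : ∀ x ∈ frontier U, ρ q' (j x) < γ := fun x hx =>
        lt_of_le_of_ne (hle x) (hfr x hx)
      rcases (frontier U).eq_empty_or_nonempty with he | hne
      · exact Or.inl he
      · right
        have hfs : ((fun x => ρ q' (j x)) '' frontier U).Finite := by
          refine (hfin q').subset ?_
          rintro _ ⟨x, _, rfl⟩
          exact ⟨j x, rfl⟩
        obtain ⟨γ', hγ', hmax⟩ := Set.exists_max_image _ id hfs (hne.image _)
        obtain ⟨x₀, hx₀, rfl⟩ := hγ'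
        refine ⟨ρ q' (j x₀), hlt x₀ hx₀, ih _ (hlt x₀ hx₀) q' _ (fun x : frontier U => j x)
          (hj.comp isClosed_frontier.isClosedEmbedding_subtypeVal) ?_⟩
        rintro ⟨x, hx⟩
        exact hmax _ ⟨x, hx, rfl⟩

end Pool.Agent.Helper53_TrInd
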